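import Mathlib

set_option autoImplicit false

open Complex MeasureTheory Set Filter Topology

namespace Pool.Agent.Lib.P64ccd3

/-- The sum of the power series with coefficients `c`. -/
noncomputable def ps (c : ℕ → ℂ) (z : ℂ) : ℂ := ∑' n, c n * z ^ n

lemma coeff_bound {c : ℕ → ℂ} {K : ℝ} {ξ : ℂ} (hξ : ‖ξ‖ = 1)
    (hc : ∀ N, ‖∑ n ∈ Finset.range N, c n * ξ ^ n‖ ≤ K) (n : ℕ) : ‖c n‖ ≤ 2 * K := by
  have h1 : c n * ξ ^ n = (∑ k ∈ Finset.range (n + 1), c k * ξ ^ k)
      - ∑ k ∈ Finset.range n, c k * ξ ^ k := by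
    rw [Finset.sum_range_succ]; ring
  have h2 : ‖c n‖ = ‖c n * ξ ^ n‖ := by rw [norm_mul, norm_pow, hξ]; simp
  rw [h2, h1]
  calc _ ≤ ‖∑ k ∈ Finset.range (n + 1), c k * ξ ^ k‖ + ‖∑ k ∈ Finset.range n, c k * ξ ^ k‖ :=
        norm_sub_le _ _
    _ ≤ K + K := add_le_add (hc _) (hc _)
    _ = 2 * K := by ring

lemma summable_of_bound {c : ℕ → ℂ} {A : ℝ} (hA : ∀ n, ‖c n‖ ≤ A) {z : ℂ} (hz : ‖z‖ < 1) :
    Summable (fun n => c n * z ^ n) := by
  apply Summable.of_norm_bounded (g := fun n => A * ‖z‖ ^ n)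
  · exact (summable_geometric_of_lt_one (norm_nonneg _) hz).mul_left A
  · intro n
    rw [norm_mul, norm_pow]
    exact mul_le_mul_of_nonneg_right (hA n) (by positivity)

/-- Abel summation bound. -/
lemma ps_abel {c : ℕ → ℂ} {K : ℝ} {ξ z : ℂ} (hξ : ‖ξ‖ = 1) (hz : ‖z‖ < 1)
    (hc : ∀ N, ‖∑ n ∈ Finset.range N, c n * ξ ^ n‖ ≤ K) :
    ‖ps c z‖ * (1 - ‖z‖) ≤ K * ‖z - ξ‖ := by
  have hξ0 : ξ ≠ 0 := by
    intro h; rw [h] at hξ; simp at hξ
  set T : ℕ → ℂ := fun N => ∑ n ∈ Finset.range N, c n * ξ ^ n with hT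
  set w : ℂ := z / ξ with hw
  have hwn : ‖w‖ = ‖z‖ := by rw [hw, norm_div, hξ, div_one]
  have hw1 : ‖w‖ < 1 := by rw [hwn]; exact hz
  have hS : Summable (fun n => T (n + 1) * w ^ n) :=
    summable_of_bound (c := fun n => T (n + 1)) (fun n => hc (n + 1)) hw1
  have hS0 : Summable (fun n => T n * w ^ n) :=
    summable_of_bound (c := fun n => T n) (fun n => hc n) hw1
  have e1 : ps c z = (1 - w) * ∑' n, T (n + 1) * w ^ n := by
    have : ∀ n, c n * z ^ n = T (n + 1) * w ^ n - T n * w ^ n := by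
      intro n
      have : T (n + 1) = T n + c n * ξ ^ n := by simp only [hT]; rw [Finset.sum_range_succ]
      rw [this, hw, div_pow]
      field_simp
      ring
    unfold ps
    simp_rw [this]
    rw [hS.tsum_sub hS0]
    have e2 : ∑' n, T n * w ^ n = w * ∑' n, T (n + 1) * w ^ n := by
      rw [hS0.tsum_eq_zero_add, ← tsum_mul_left]
      have : T 0 = 0 := by simp [hT]
      rw [this]
      simp only [zero_mul, zero_add]
      apply tsum_congr
      intro n
      ring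
    rw [e2]; ring
  have hK : 0 ≤ K := le_trans (norm_nonneg _) (hc 0)
  have e3 : ‖∑' n, T (n + 1) * w ^ n‖ ≤ K * (1 - ‖z‖)⁻¹ := by
    have h1 : HasSum (fun n => K * ‖w‖ ^ n) (K * (1 - ‖w‖)⁻¹) :=
      (hasSum_geometric_of_lt_one (norm_nonneg _) hw1).mul_left K
    rw [← hwn]
    apply tsum_of_norm_bounded h1
    intro n
    rw [norm_mul, norm_pow]
    exact mul_le_mul_of_nonneg_right (hc (n + 1)) (by positivity)
  have e4 : ‖1 - w‖ = ‖z - ξ‖ := by
    have : 1 - w = (ξ - z) / ξ := by rw [hw]; field_simp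
    rw [this, norm_div, hξ, div_one, norm_sub_rev]
  have hz' : 0 < 1 - ‖z‖ := by linarith
  rw [e1, norm_mul, e4]
  calc ‖z - ξ‖ * ‖∑' n, T (n + 1) * w ^ n‖ * (1 - ‖z‖)
      ≤ ‖z - ξ‖ * (K * (1 - ‖z‖)⁻¹) * (1 - ‖z‖) := by gcongr
    _ = K * ‖z - ξ‖ := by field_simp

lemma norm_exp_mul_I' (w : ℂ) : ‖exp (w * I)‖ = Real.exp (-w.im) := by
  rw [Complex.norm_exp]; simp

lemma exp_sub_le {w : ℂ} (hw : 0 ≤ w.im) (x : ℝ) : ‖exp (w * I) - exp (x * I)‖ ≤ ‖w - x‖ := by
  have hconv : Convex ℝ {w : ℂ | 0 ≤ w.im} := convex_halfSpace_im_ge 0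
  have hd : ∀ v ∈ {w : ℂ | 0 ≤ w.im}, HasDerivWithinAt (fun v : ℂ => exp (v * I)) (exp (v * I) * I)
      {w : ℂ | 0 ≤ w.im} v := by
    intro v _
    have := ((hasDerivAt_id v).mul_const I).cexp
    simp only [id, one_mul] at this
    exact this.hasDerivWithinAt
  have hb : ∀ v ∈ {w : ℂ | 0 ≤ w.im}, ‖exp (v * I) * I‖ ≤ 1 := by
    intro v hv
    rw [norm_mul, norm_exp_mul_I', norm_I, mul_one]
    apply Real.exp_le_one_iff.mpr
    simp only [Set.mem_ofPred_eq] at hv
    linarith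
  have := hconv.norm_image_sub_le_of_norm_hasDerivWithin_le (x := (x : ℂ)) (y := w) hd hb
    (by simp) hw
  simpa using this

/-- The bound used for functions in the upper half plane. -/
def Good (φ : ℂ → ℂ) (K : ℝ) (p : ℝ) : Prop :=
  ∀ w : ℂ, 0 < w.im → w.im ≤ 7 → ‖φ w‖ * w.im ≤ K * ‖w - p‖

lemma good_ps {c : ℕ → ℂ} {K : ℝ} {p : ℝ}
    (hc : ∀ N, ‖∑ n ∈ Finset.range N, c n * (exp (p * I)) ^ n‖ ≤ K) :
    Good (fun w => ps c (exp (w * I))) (8 * K) p := by
  intro w hw hw7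
  have hK : 0 ≤ K := le_trans (norm_nonneg _) (hc 0)
  have h1 : ‖exp ((p : ℂ) * I)‖ = 1 := by rw [norm_exp_mul_I']; simp
  have h2 : ‖exp (w * I)‖ < 1 := by
    rw [norm_exp_mul_I']
    rw [Real.exp_lt_one_iff]
    linarith
  have h3 := ps_abel h1 h2 hc
  rw [norm_exp_mul_I'] at h3
  have h4 := exp_sub_le hw.le p
  have h5 : w.im ≤ (1 + w.im) * (1 - Real.exp (-w.im)) := by
    have : Real.exp (-w.im) * (1 + w.im) ≤ 1 := by
      have h6 : 1 + w.im ≤ Real.exp w.im := by linarith [Real.add_one_le_exp w.im]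
      calc Real.exp (-w.im) * (1 + w.im) ≤ Real.exp (-w.im) * Real.exp w.im := by gcongr
        _ = 1 := by rw [← Real.exp_add]; simp
    nlinarith
  calc ‖ps c (exp (w * I))‖ * w.im
      ≤ ‖ps c (exp (w * I))‖ * ((1 + w.im) * (1 - Real.exp (-w.im))) := by gcongr
    _ = (1 + w.im) * (‖ps c (exp (w * I))‖ * (1 - Real.exp (-w.im))) := by ring
    _ ≤ (1 + w.im) * (K * ‖exp (w * I) - exp (p * I)‖) := by gcongr
    _ ≤ 8 * (K * ‖w - p‖) := by
        gcongr
        linarith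
    _ = 8 * K * ‖w - p‖ := by ring

lemma rect (f : ℂ → ℂ) (a b c d : ℝ) (hcd : c ≤ d)
    (H : DifferentiableOn ℂ f {w | c ≤ w.im}) :
    ∫ x in a..b, f (x + c * I) = (∫ x in a..b, f (x + d * I))
      - I * (∫ y in c..d, f (b + y * I)) + I * ∫ y in c..d, f (a + y * I) := by
  have := Complex.integral_boundary_rect_eq_zero_of_differentiableOn f (a + c * I) (b + d * I) (by
    apply H.mono
    intro w hw
    rw [mem_reProdIm] at hw
    simp only [add_re, ofReal_re, mul_re, I_re, mul_zero, ofReal_im, I_im, mul_one, sub_self,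
      add_zero, add_im, mul_im, zero_add] at hw
    rw [uIcc_of_le hcd] at hw
    exact hw.2.1)
  simp only [add_re, ofReal_re, mul_re, I_re, mul_zero, ofReal_im, I_im, mul_one, sub_self,
      add_zero, add_im, mul_im, zero_add, smul_eq_mul] at this
  linear_combination this

lemma norm_le_add_im (a b : ℝ) : ‖(a : ℂ) + b * I‖ ≤ |a| + |b| := by
  calc ‖(a : ℂ) + b * I‖ ≤ ‖(a : ℂ)‖ + ‖(b : ℂ) * I‖ := norm_add_le _ _
    _ = |a| + |b| := by simp

lemma Good.nonneg {φ : ℂ → ℂ} {K p : ℝ} (h : Good φ K p) : 0 ≤ K := by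
  have := h (p + 1 * I) (by simp) (by simp)
  simp at this
  exact le_trans (norm_nonneg _) this

lemma Good.bound {φ : ℂ → ℂ} {K p : ℝ} (h : Good φ K p) {x y : ℝ} (hy : 0 < y) (hy7 : y ≤ 7)
    {C : ℝ} (hC : |x - p| + y ≤ C * y) : ‖φ (x + y * I)‖ ≤ K * C := by
  have h0 := h.nonneg
  have h1 := h (x + y * I) (by simpa using hy) (by simpa using hy7)
  have h2 : (x : ℂ) + y * I - p = ((x - p : ℝ) : ℂ) + y * I := by push_cast; ring
  have h3 := norm_le_add_im (x - p) y
  rw [abs_of_pos hy] at h3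
  rw [h2] at h1
  simp only [add_im, ofReal_im, mul_im, ofReal_re, I_im, mul_one, I_re, mul_zero, add_zero,
    zero_add] at h1
  have h4 : ‖φ (x + y * I)‖ * y ≤ K * C * y := by
    calc _ ≤ K * ‖((x - p : ℝ) : ℂ) + y * I‖ := h1
      _ ≤ K * (|x - p| + y) := by gcongr
      _ ≤ K * (C * y) := by gcongr
      _ = K * C * y := by ring
  exact le_of_mul_le_mul_right h4 hy

lemma Good.bound' {φ : ℂ → ℂ} {K p : ℝ} (h : Good φ K p) {x y : ℝ} (hy : 0 < y) (hy7 : y ≤ 7)
    {C : ℝ} (hC : |x - p| + y ≤ C) : y * ‖φ (x + y * I)‖ ≤ K * C := by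
  have h0 := h.nonneg
  have h1 := h (x + y * I) (by simpa using hy) (by simpa using hy7)
  have h2 : (x : ℂ) + y * I - p = ((x - p : ℝ) : ℂ) + y * I := by push_cast; ring
  have h3 := norm_le_add_im (x - p) y
  rw [abs_of_pos hy] at h3
  rw [h2] at h1
  simp only [add_im, ofReal_im, mul_im, ofReal_re, I_im, mul_one, I_re, mul_zero, add_zero,
    zero_add] at h1
  calc _ ≤ K * ‖((x - p : ℝ) : ℂ) + y * I‖ := by rw [mul_comm]; exact h1
      _ ≤ K * (|x - p| + y) := by gcongr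
      _ ≤ K * C := by gcongr

lemma int_between {φ : ℂ → ℂ} (hφ : DifferentiableOn ℂ φ {w | 0 < w.im}) {K p q : ℝ}
    (hpq : p ≤ q) (hlen : q - p ≤ 7) (hp : Good φ K p) (hq : Good φ K q) {η : ℝ} (hη : 0 < η)
    (hη7 : η ≤ 7) : ‖∫ x in p..q, φ (x + η * I)‖ ≤ 4 * K * (q - p) := by
  have hK := hp.nonneg
  rcases le_or_gt (q - p) η with hc | hc
  · have h1 : ∀ x ∈ Set.uIoc p q, ‖φ (x + η * I)‖ ≤ K * 2 := by
      intro x hx
      rw [uIoc_of_le hpq] at hx
      apply hp.bound hη hη7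
      rw [abs_of_pos (by linarith [hx.1])]
      linarith [hx.2]
    have h2 := intervalIntegral.norm_integral_le_of_norm_le_const h1
    rw [abs_of_nonneg (by linarith)] at h2
    have : 0 ≤ K * (q - p) := mul_nonneg hK (by linarith)
    linarith
  · rw [rect φ p q η (q - p) hc.le (hφ.mono (fun w hw => by
      simp only [Set.mem_ofPred_eq] at hw ⊢; linarith))]
    have hl : 0 < q - p := by linarith
    have t1 : ‖∫ x in p..q, φ (x + ((q - p : ℝ) : ℂ) * I)‖ ≤ K * 2 * (q - p) := by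
      have h1 : ∀ x ∈ Set.uIoc p q, ‖φ (x + ((q - p : ℝ) : ℂ) * I)‖ ≤ K * 2 := by
        intro x hx
        rw [uIoc_of_le hpq] at hx
        apply hp.bound hl hlen
        rw [abs_of_pos (by linarith [hx.1])]
        linarith [hx.2]
      have h2 := intervalIntegral.norm_integral_le_of_norm_le_const h1
      rwa [abs_of_nonneg (by linarith)] at h2
    have t2 : ‖I * ∫ y in η..(q - p), φ (q + y * I)‖ ≤ K * 1 * (q - p) := by
      have h1 : ∀ y ∈ Set.uIoc η (q - p), ‖φ (q + y * I)‖ ≤ K * 1 := by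
        intro y hy
        rw [uIoc_of_le hc.le] at hy
        apply hq.bound (by linarith [hy.1]) (by linarith [hy.2])
        simp
      have h2 := intervalIntegral.norm_integral_le_of_norm_le_const h1
      rw [abs_of_nonneg (by linarith)] at h2
      rw [norm_mul, norm_I, one_mul]
      apply h2.trans
      apply mul_le_mul_of_nonneg_left _ (by linarith)
      linarith
    have t3 : ‖I * ∫ y in η..(q - p), φ (p + y * I)‖ ≤ K * 1 * (q - p) := by
      have h1 : ∀ y ∈ Set.uIoc η (q - p), ‖φ (p + y * I)‖ ≤ K * 1 := by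
        intro y hy
        rw [uIoc_of_le hc.le] at hy
        apply hp.bound (by linarith [hy.1]) (by linarith [hy.2])
        simp
      have h2 := intervalIntegral.norm_integral_le_of_norm_le_const h1
      rw [abs_of_nonneg (by linarith)] at h2
      rw [norm_mul, norm_I, one_mul]
      apply h2.trans
      apply mul_le_mul_of_nonneg_left _ (by linarith)
      linarith
    calc _ ≤ ‖∫ x in p..q, φ (x + ((q - p : ℝ) : ℂ) * I)‖
          + ‖I * ∫ y in η..(q - p), φ (q + y * I)‖ + ‖I * ∫ y in η..(q - p), φ (p + y * I)‖ :=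
          (norm_add_le _ _).trans (add_le_add_left (norm_sub_le _ _) _)
      _ ≤ K * 2 * (q - p) + K * 1 * (q - p) + K * 1 * (q - p) := by gcongr
      _ = _ := by ring

/-- Corner estimate. -/
lemma int_corner {φ : ℂ → ℂ} (hφ : DifferentiableOn ℂ φ {w | 0 < w.im}) {K p ε : ℝ}
    (hε : 0 < ε) (hε7 : ε ≤ 7) (hp : Good φ K p) {η : ℝ} (hη : 0 < η)
    (hηε : η ≤ ε) : ‖(∫ x in p..(p + ε), φ (x + η * I)) +
      ∫ x in (p + ε)..(p + 2 * ε), ((2 - (x - p) / ε : ℝ) : ℂ) * φ (x + η * I)‖ ≤ 14 * K * ε := by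
  have hK := hp.nonneg
  have hεc : (ε : ℂ) ≠ 0 := by exact_mod_cast hε.ne'
  have hsub : {w : ℂ | η ≤ w.im} ⊆ {w | 0 < w.im} := fun w hw => by
      simp only [Set.mem_ofPred_eq] at hw ⊢; linarith
  set f : ℂ → ℂ := fun w => (2 - (w - η * I - p) / ε) * φ w with hf
  have hfd : DifferentiableOn ℂ f {w | η ≤ w.im} := by
    apply DifferentiableOn.mul _ (hφ.mono hsub)
    fun_prop
  have e0 : ∫ x in (p + ε)..(p + 2 * ε), ((2 - (x - p) / ε : ℝ) : ℂ) * φ (x + η * I)
      = ∫ x in (p + ε)..(p + 2 * ε), f (x + η * I) := by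
    apply intervalIntegral.integral_congr
    intro x _
    simp only [hf]
    push_cast
    ring_nf
  rw [e0, rect φ p (p + ε) η ε hηε (hφ.mono hsub), rect f (p + ε) (p + 2 * ε) η ε hηε hfd]
  have t1 : ‖∫ x in p..(p + ε), φ (x + ε * I)‖ ≤ K * 2 * ε := by
    have h1 : ∀ x ∈ Set.uIoc p (p + ε), ‖φ (x + ε * I)‖ ≤ K * 2 := by
      intro x hx
      rw [uIoc_of_le (by linarith)] at hx
      apply hp.bound hε hε7
      rw [abs_of_pos (by linarith [hx.1])]
      linarith [hx.2]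
    have h2 := intervalIntegral.norm_integral_le_of_norm_le_const h1
    rwa [abs_of_nonneg (by linarith), add_sub_cancel_left] at h2
  have t2 : ‖∫ x in (p + ε)..(p + 2 * ε), f (x + ε * I)‖ ≤ K * 6 * ε := by
    have h1 : ∀ x ∈ Set.uIoc (p + ε) (p + 2 * ε), ‖f (x + ε * I)‖ ≤ K * 6 := by
      intro x hx
      rw [uIoc_of_le (by linarith)] at hx
      have h3 : ‖φ (x + ε * I)‖ ≤ K * 3 := by
        apply hp.bound hε hε7
        rw [abs_of_pos (by linarith [hx.1])]
        linarith [hx.2]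
      have h4 : (2 : ℂ) - ((x : ℂ) + ε * I - η * I - p) / ε
          = ((2 - (x - p) / ε : ℝ) : ℂ) + (((η - ε) / ε : ℝ) : ℂ) * I := by
        push_cast
        field_simp
        ring
      have h5 : |2 - (x - p) / ε| ≤ 1 := by
        have h51 : 1 ≤ (x - p) / ε := by rw [le_div_iff₀ hε]; linarith [hx.1]
        have h52 : (x - p) / ε ≤ 2 := by rw [div_le_iff₀ hε]; linarith [hx.2]
        rw [abs_le]; constructor <;> linarith
      have h6 : |(η - ε) / ε| ≤ 1 := by
        have h61 : -1 ≤ (η - ε) / ε := by rw [le_div_iff₀ hε]; linarith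
        have h62 : (η - ε) / ε ≤ 1 := by rw [div_le_iff₀ hε]; linarith
        rw [abs_le]; constructor <;> linarith
      have h7 := norm_le_add_im (2 - (x - p) / ε) ((η - ε) / ε)
      simp only [hf]
      rw [norm_mul, h4]
      calc _ ≤ 2 * (K * 3) := by
            gcongr
            linarith
        _ = K * 6 := by ring
    have h2 := intervalIntegral.norm_integral_le_of_norm_le_const h1
    rwa [abs_of_nonneg (by linarith), show p + 2 * ε - (p + ε) = ε by ring] at h2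
  have t3 : ‖∫ y in η..ε, φ (p + y * I)‖ ≤ K * 1 * ε := by
    have h1 : ∀ y ∈ Set.uIoc η ε, ‖φ (p + y * I)‖ ≤ K * 1 := by
      intro y hy
      rw [uIoc_of_le hηε] at hy
      apply hp.bound (by linarith [hy.1]) (by linarith [hy.2])
      simp
    have h2 := intervalIntegral.norm_integral_le_of_norm_le_const h1
    rw [abs_of_nonneg (by linarith)] at h2
    apply h2.trans
    gcongr
    linarith
  have t4 : ‖∫ y in η..ε, f (((p + 2 * ε : ℝ) : ℂ) + y * I)‖ ≤ K * 3 * ε := by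
    have h1 : ∀ y ∈ Set.uIoc η ε, ‖f (((p + 2 * ε : ℝ) : ℂ) + y * I)‖ ≤ K * 3 := by
      intro y hy
      rw [uIoc_of_le hηε] at hy
      have hy0 : 0 < y := by linarith [hy.1]
      have h3 : y * ‖φ (((p + 2 * ε : ℝ) : ℂ) + y * I)‖ ≤ K * (3 * ε) := by
        apply hp.bound' hy0 (by linarith [hy.2])
        rw [abs_of_pos (by linarith)]
        linarith [hy.2]
      have h4 : (2 : ℂ) - (((p + 2 * ε : ℝ) : ℂ) + y * I - η * I - p) / ε
          = (((η - y) / ε : ℝ) : ℂ) * I := by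
        push_cast
        field_simp
        ring
      have h5 : ‖(((η - y) / ε : ℝ) : ℂ) * I‖ ≤ y / ε := by
        rw [norm_mul, norm_I, mul_one, norm_real, Real.norm_eq_abs, abs_div, abs_of_pos hε]
        gcongr
        rw [abs_le]; constructor <;> linarith [hy.1]
      simp only [hf]
      rw [norm_mul, h4]
      calc _ ≤ y / ε * ‖φ (((p + 2 * ε : ℝ) : ℂ) + y * I)‖ := by gcongr
        _ = (y * ‖φ (((p + 2 * ε : ℝ) : ℂ) + y * I)‖) / ε := by ring
        _ ≤ (K * (3 * ε)) / ε := by gcongr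
        _ = K * 3 := by field_simp
    have h2 := intervalIntegral.norm_integral_le_of_norm_le_const h1
    rw [abs_of_nonneg (by linarith)] at h2
    apply h2.trans
    gcongr
    linarith
  have t5 : ‖(∫ y in η..ε, f (((p + ε : ℝ) : ℂ) + y * I))
      - ∫ y in η..ε, φ (((p + ε : ℝ) : ℂ) + y * I)‖ ≤ K * 2 * ε := by
    have hcont : ∀ g : ℂ → ℂ, DifferentiableOn ℂ g {w | η ≤ w.im} → IntervalIntegrable
        (fun y : ℝ => g (((p + ε : ℝ) : ℂ) + y * I)) volume η ε := by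
      intro g hg
      apply ContinuousOn.intervalIntegrable
      apply hg.continuousOn.comp (by fun_prop)
      intro y hy
      rw [uIcc_of_le hηε] at hy
      simpa using hy.1
    rw [← intervalIntegral.integral_sub (hcont f hfd) (hcont φ (hφ.mono hsub))]
    have h1 : ∀ y ∈ Set.uIoc η ε, ‖f (((p + ε : ℝ) : ℂ) + y * I)
        - φ (((p + ε : ℝ) : ℂ) + y * I)‖ ≤ K * 2 := by
      intro y hy
      rw [uIoc_of_le hηε] at hy
      have hy0 : 0 < y := by linarith [hy.1]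
      have h3 : y * ‖φ (((p + ε : ℝ) : ℂ) + y * I)‖ ≤ K * (2 * ε) := by
        apply hp.bound' hy0 (by linarith [hy.2])
        rw [abs_of_pos (by linarith)]
        linarith [hy.2]
      have h4 : (2 : ℂ) - (((p + ε : ℝ) : ℂ) + y * I - η * I - p) / ε - 1
          = (((η - y) / ε : ℝ) : ℂ) * I := by
        push_cast
        field_simp
        ring
      have h5 : ‖(((η - y) / ε : ℝ) : ℂ) * I‖ ≤ y / ε := by
        rw [norm_mul, norm_I, mul_one, norm_real, Real.norm_eq_abs, abs_div, abs_of_pos hε]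
        gcongr
        rw [abs_le]; constructor <;> linarith [hy.1]
      have h6 : f (((p + ε : ℝ) : ℂ) + y * I) - φ (((p + ε : ℝ) : ℂ) + y * I)
          = ((((η - y) / ε : ℝ) : ℂ) * I) * φ (((p + ε : ℝ) : ℂ) + y * I) := by
        rw [← h4]
        simp only [hf]
        ring
      rw [h6, norm_mul]
      calc _ ≤ y / ε * ‖φ (((p + ε : ℝ) : ℂ) + y * I)‖ := by gcongr
        _ = (y * ‖φ (((p + ε : ℝ) : ℂ) + y * I)‖) / ε := by ring
        _ ≤ (K * (2 * ε)) / ε := by gcongr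
        _ = K * 2 := by field_simp
    have h2 := intervalIntegral.norm_integral_le_of_norm_le_const h1
    rw [abs_of_nonneg (by linarith)] at h2
    apply h2.trans
    gcongr
    linarith
  set A1 := ∫ x in p..(p + ε), φ (x + ε * I)
  set A2 := ∫ x in (p + ε)..(p + 2 * ε), f (x + ε * I)
  set A3 := ∫ y in η..ε, φ (p + y * I)
  set A4 := ∫ y in η..ε, f (((p + 2 * ε : ℝ) : ℂ) + y * I)
  set A5 := ∫ y in η..ε, f (((p + ε : ℝ) : ℂ) + y * I)
  set A6 := ∫ y in η..ε, φ (((p + ε : ℝ) : ℂ) + y * I)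
  have e1 : A1 - I * A6 + I * A3 + (A2 - I * A4 + I * A5)
      = A1 + A2 + I * A3 - I * A4 + I * (A5 - A6) := by ring
  rw [e1]
  have n1 : ‖I * A3‖ ≤ K * 1 * ε := by rw [norm_mul, norm_I, one_mul]; exact t3
  have n2 : ‖I * A4‖ ≤ K * 3 * ε := by rw [norm_mul, norm_I, one_mul]; exact t4
  have n3 : ‖I * (A5 - A6)‖ ≤ K * 2 * ε := by rw [norm_mul, norm_I, one_mul]; exact t5
  calc _ ≤ ‖A1‖ + ‖A2‖ + ‖I * A3‖ + ‖I * A4‖ + ‖I * (A5 - A6)‖ := by
        refine (norm_add_le _ _).trans (add_le_add_left ?_ _)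
        refine (norm_sub_le _ _).trans (add_le_add_left ?_ _)
        refine (norm_add_le _ _).trans (add_le_add_left ?_ _)
        exact norm_add_le _ _
    _ ≤ K * 2 * ε + K * 6 * ε + K * 1 * ε + K * 3 * ε + K * 2 * ε := by gcongr
    _ = _ := by ring

end Pool.Agent.Lib.P64ccd3
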