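import Pool.Agent.Lib.P64ccd3.Part7

set_option autoImplicit false

open Complex MeasureTheory Set Filter Topology

namespace Pool.Agent.Lib.P64ccd3

theorem main (a : ℕ → ℂ) (E : Set ℂ)
    (hE : E = {ξ : ℂ | ‖ξ‖ = 1 ∧ ¬ ∃ r : ℝ, 0 < r ∧ ∃ g : ℂ → ℂ,
          DifferentiableOn ℂ g (Metric.ball ξ r) ∧
          ∀ w ∈ Metric.ball ξ r, ‖w‖ < 1 → g w = ∑' n, a n * w ^ n})
    (hM : ∃ M : ℝ, ∀ ξ ∈ E, ∀ N : ℕ, ‖∑ n ∈ Finset.range (N + 1), a n * ξ ^ n‖ ≤ M)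
    (hne : ∃ θ : ℝ, exp ((θ : ℂ) * I) ∈ E) (z : ℂ) (hz : ‖z‖ = 1) (hzE : z ∉ E) :
      ∃ L : ℂ, Filter.Tendsto (fun N : ℕ => ∑ n ∈ Finset.range N, a n * z ^ n)
            Filter.atTop (nhds L) ∧
        ∃ r : ℝ, 0 < r ∧ ∃ g : ℂ → ℂ, DifferentiableOn ℂ g (Metric.ball z r) ∧
          (∀ w ∈ Metric.ball z r, ‖w‖ < 1 → g w = ∑' n, a n * w ^ n) ∧ g z = L := by
  obtain ⟨M, hM⟩ := hM
  obtain ⟨α, hα⟩ := hne
  have hM0 : 0 ≤ M := (norm_nonneg _).trans (hM _ hα 0)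
  set P : Set ℝ := {x : ℝ | exp ((x : ℂ) * I) ∈ E} with hPdef
  have hnorm1 : ∀ p : ℝ, ‖exp ((p : ℂ) * I)‖ = 1 := by
    intro p; rw [norm_exp_mul_I']; simp
  -- regular points
  have hregpt : ∀ ξ : ℂ, ‖ξ‖ = 1 → ξ ∉ E → ∃ r : ℝ, 0 < r ∧ ∃ g : ℂ → ℂ,
          DifferentiableOn ℂ g (Metric.ball ξ r) ∧
          ∀ w ∈ Metric.ball ξ r, ‖w‖ < 1 → g w = ∑' n, a n * w ^ n := by
    intro ξ h1 h2
    by_contra h3
    apply h2
    rw [hE]
    exact ⟨h1, h3⟩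
  have hP : IsClosed P := by
    rw [← isOpen_compl_iff, Metric.isOpen_iff]
    intro x hx
    obtain ⟨r, hr, g, hg1, hg2⟩ := hregpt (exp ((x : ℂ) * I)) (hnorm1 x) hx
    have hcont : ContinuousAt (fun y : ℝ => exp ((y : ℂ) * I)) x := by fun_prop
    obtain ⟨d, hd, hd2⟩ := Metric.continuousAt_iff.mp hcont (r / 2) (by linarith)
    refine ⟨d, hd, ?_⟩
    intro y hy hyP
    have hy2 := hd2 hy
    have hyE : exp ((y : ℂ) * I) ∈ E := hyP
    rw [hE] at hyE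
    apply hyE.2
    have hsub : Metric.ball (exp ((y : ℂ) * I)) (r / 2) ⊆ Metric.ball (exp ((x : ℂ) * I)) r := by
      apply Metric.ball_subset_ball'
      linarith
    exact ⟨r / 2, by linarith, g, hg1.mono hsub, fun w hw => hg2 w (hsub hw)⟩
  have hβ : α + 2 * Real.pi ∈ P := by
    have : exp (((α + 2 * Real.pi : ℝ) : ℂ) * I) = exp ((α : ℂ) * I) := by
      rw [Complex.exp_eq_exp_iff_exists_int]
      exact ⟨1, by push_cast; ring⟩
    change exp (((α + 2 * Real.pi : ℝ) : ℂ) * I) ∈ E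
    rw [this]
    exact hα
  have hMP : ∀ p ∈ P, ∀ N, ‖∑ n ∈ Finset.range N, a n * (exp (p * I)) ^ n‖ ≤ M := by
    intro p hp N
    rcases N with _ | N
    · simpa using hM0
    · exact hM _ hp N
  have hlim : Tendsto a atTop (𝓝 0) := by
    apply tendsto_zero hP (α := α) hα hβ hMP
    intro x _ hx
    obtain ⟨r, hr, g, hg1, hg2⟩ := hregpt (exp ((x : ℂ) * I)) (hnorm1 x) hx
    have hsub : Metric.closedBall (exp ((x : ℂ) * I)) (r / 2) ⊆ Metric.ball (exp ((x : ℂ) * I)) r :=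
      Metric.closedBall_subset_ball (by linarith)
    obtain ⟨B, hB⟩ := (isCompact_closedBall (exp ((x : ℂ) * I)) (r / 2)).exists_bound_of_continuousOn
      (hg1.continuousOn.mono hsub)
    have hcont : ContinuousAt (fun w : ℂ => exp (w * I)) (x : ℂ) := by fun_prop
    obtain ⟨d, hd, hd2⟩ := Metric.continuousAt_iff.mp hcont (r / 2) (by linarith)
    refine ⟨d, hd, B, ?_⟩
    intro w hw hw2
    have h1 := hd2 (by rw [dist_eq_norm]; exact hw)
    have h2 : exp (w * I) ∈ Metric.closedBall (exp ((x : ℂ) * I)) (r / 2) :=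
      Metric.mem_closedBall.mpr h1.le
    have h3 := hg2 _ (hsub h2) (norm_exp_lt_one hw2)
    have h4 : ps a (exp (w * I)) = g (exp (w * I)) := h3.symm
    rw [h4]
    exact hB _ h2
  obtain ⟨r, hr, g, hg1, hg2⟩ := hregpt z hz hzE
  have hzx : z = exp ((z.arg : ℂ) * I) := by
    have := Complex.norm_mul_exp_arg_mul_I z
    rw [hz] at this
    simpa using this.symm
  refine ⟨g z, ?_, r, hr, g, hg1, hg2, rfl⟩
  have hfin := riesz hlim (x0 := z.arg) hr (g := g) (by rw [← hzx]; exact hg1)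
    (by rw [← hzx]; exact hg2)
  rw [← hzx] at hfin
  exact hfin

end Pool.Agent.Lib.P64ccd3
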