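import Pool.Agent.Lib.P64ccd3.Basic

set_option autoImplicit false

open Complex MeasureTheory Set Filter Topology

namespace Pool.Agent.Lib.P64ccd3

/-- Corner estimate, right side. -/
lemma int_corner' {φ : ℂ → ℂ} (hφ : DifferentiableOn ℂ φ {w | 0 < w.im}) {K q ε : ℝ}
    (hε : 0 < ε) (hε7 : ε ≤ 7) (hp : Good φ K q) {η : ℝ} (hη : 0 < η)
    (hηε : η ≤ ε) : ‖(∫ x in (q - 2 * ε)..(q - ε), ((2 - (q - x) / ε : ℝ) : ℂ) * φ (x + η * I)) +
      ∫ x in (q - ε)..q, φ (x + η * I)‖ ≤ 14 * K * ε := by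
  have hK := hp.nonneg
  have hεc : (ε : ℂ) ≠ 0 := by exact_mod_cast hε.ne'
  have hsub : {w : ℂ | η ≤ w.im} ⊆ {w | 0 < w.im} := fun w hw => by
      simp only [Set.mem_ofPred_eq] at hw ⊢; linarith
  set f : ℂ → ℂ := fun w => (2 - (q - (w - η * I)) / ε) * φ w with hf
  have hfd : DifferentiableOn ℂ f {w | η ≤ w.im} := by
    apply DifferentiableOn.mul _ (hφ.mono hsub)
    fun_prop
  have e0 : ∫ x in (q - 2 * ε)..(q - ε), ((2 - (q - x) / ε : ℝ) : ℂ) * φ (x + η * I)
      = ∫ x in (q - 2 * ε)..(q - ε), f (x + η * I) := by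
    apply intervalIntegral.integral_congr
    intro x _
    simp only [hf]
    push_cast
    ring_nf
  rw [e0, rect φ (q - ε) q η ε hηε (hφ.mono hsub), rect f (q - 2 * ε) (q - ε) η ε hηε hfd]
  have t1 : ‖∫ x in (q - ε)..q, φ (x + ε * I)‖ ≤ K * 2 * ε := by
    have h1 : ∀ x ∈ Set.uIoc (q - ε) q, ‖φ (x + ε * I)‖ ≤ K * 2 := by
      intro x hx
      rw [uIoc_of_le (by linarith)] at hx
      apply hp.bound hε hε7
      rw [abs_of_nonpos (by linarith [hx.2])]
      linarith [hx.1]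
    have h2 := intervalIntegral.norm_integral_le_of_norm_le_const h1
    rwa [abs_of_nonneg (by linarith), show q - (q - ε) = ε by ring] at h2
  have t2 : ‖∫ x in (q - 2 * ε)..(q - ε), f (x + ε * I)‖ ≤ K * 6 * ε := by
    have h1 : ∀ x ∈ Set.uIoc (q - 2 * ε) (q - ε), ‖f (x + ε * I)‖ ≤ K * 6 := by
      intro x hx
      rw [uIoc_of_le (by linarith)] at hx
      have h3 : ‖φ (x + ε * I)‖ ≤ K * 3 := by
        apply hp.bound hε hε7
        rw [abs_of_nonpos (by linarith [hx.2])]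
        linarith [hx.1]
      have h4 : (2 : ℂ) - (q - ((x : ℂ) + ε * I - η * I)) / ε
          = ((2 - (q - x) / ε : ℝ) : ℂ) + (((ε - η) / ε : ℝ) : ℂ) * I := by
        push_cast
        field_simp
        ring
      have h5 : |2 - (q - x) / ε| ≤ 1 := by
        have h51 : 1 ≤ (q - x) / ε := by rw [le_div_iff₀ hε]; linarith [hx.2]
        have h52 : (q - x) / ε ≤ 2 := by rw [div_le_iff₀ hε]; linarith [hx.1]
        rw [abs_le]; constructor <;> linarith
      have h6 : |(ε - η) / ε| ≤ 1 := by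
        have h61 : -1 ≤ (ε - η) / ε := by rw [le_div_iff₀ hε]; linarith
        have h62 : (ε - η) / ε ≤ 1 := by rw [div_le_iff₀ hε]; linarith
        rw [abs_le]; constructor <;> linarith
      have h7 := norm_le_add_im (2 - (q - x) / ε) ((ε - η) / ε)
      simp only [hf]
      rw [norm_mul, h4]
      calc _ ≤ 2 * (K * 3) := by
            gcongr
            linarith
        _ = K * 6 := by ring
    have h2 := intervalIntegral.norm_integral_le_of_norm_le_const h1
    rwa [abs_of_nonneg (by linarith), show q - ε - (q - 2 * ε) = ε by ring] at h2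
  have t3 : ‖∫ y in η..ε, φ (q + y * I)‖ ≤ K * 1 * ε := by
    have h1 : ∀ y ∈ Set.uIoc η ε, ‖φ (q + y * I)‖ ≤ K * 1 := by
      intro y hy
      rw [uIoc_of_le hηε] at hy
      apply hp.bound (by linarith [hy.1]) (by linarith [hy.2])
      simp
    have h2 := intervalIntegral.norm_integral_le_of_norm_le_const h1
    rw [abs_of_nonneg (by linarith)] at h2
    apply h2.trans
    gcongr
    linarith
  have t4 : ‖∫ y in η..ε, f (((q - 2 * ε : ℝ) : ℂ) + y * I)‖ ≤ K * 3 * ε := by
    have h1 : ∀ y ∈ Set.uIoc η ε, ‖f (((q - 2 * ε : ℝ) : ℂ) + y * I)‖ ≤ K * 3 := by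
      intro y hy
      rw [uIoc_of_le hηε] at hy
      have hy0 : 0 < y := by linarith [hy.1]
      have h3 : y * ‖φ (((q - 2 * ε : ℝ) : ℂ) + y * I)‖ ≤ K * (3 * ε) := by
        apply hp.bound' hy0 (by linarith [hy.2])
        rw [abs_of_neg (by linarith)]
        linarith [hy.2]
      have h4 : (2 : ℂ) - (q - (((q - 2 * ε : ℝ) : ℂ) + y * I - η * I)) / ε
          = (((y - η) / ε : ℝ) : ℂ) * I := by
        push_cast
        field_simp
        ring
      have h5 : ‖(((y - η) / ε : ℝ) : ℂ) * I‖ ≤ y / ε := by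
        rw [norm_mul, norm_I, mul_one, norm_real, Real.norm_eq_abs, abs_div, abs_of_pos hε]
        gcongr
        rw [abs_le]; constructor <;> linarith [hy.1]
      simp only [hf]
      rw [norm_mul, h4]
      calc _ ≤ y / ε * ‖φ (((q - 2 * ε : ℝ) : ℂ) + y * I)‖ := by gcongr
        _ = (y * ‖φ (((q - 2 * ε : ℝ) : ℂ) + y * I)‖) / ε := by ring
        _ ≤ (K * (3 * ε)) / ε := by gcongr
        _ = K * 3 := by field_simp
    have h2 := intervalIntegral.norm_integral_le_of_norm_le_const h1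
    rw [abs_of_nonneg (by linarith)] at h2
    apply h2.trans
    gcongr
    linarith
  have t5 : ‖(∫ y in η..ε, f (((q - ε : ℝ) : ℂ) + y * I))
      - ∫ y in η..ε, φ (((q - ε : ℝ) : ℂ) + y * I)‖ ≤ K * 2 * ε := by
    have hcont : ∀ g : ℂ → ℂ, DifferentiableOn ℂ g {w | η ≤ w.im} → IntervalIntegrable
        (fun y : ℝ => g (((q - ε : ℝ) : ℂ) + y * I)) volume η ε := by
      intro g hg
      apply ContinuousOn.intervalIntegrable
      apply hg.continuousOn.comp (by fun_prop)
      intro y hy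
      rw [uIcc_of_le hηε] at hy
      simpa using hy.1
    rw [← intervalIntegral.integral_sub (hcont f hfd) (hcont φ (hφ.mono hsub))]
    have h1 : ∀ y ∈ Set.uIoc η ε, ‖f (((q - ε : ℝ) : ℂ) + y * I)
        - φ (((q - ε : ℝ) : ℂ) + y * I)‖ ≤ K * 2 := by
      intro y hy
      rw [uIoc_of_le hηε] at hy
      have hy0 : 0 < y := by linarith [hy.1]
      have h3 : y * ‖φ (((q - ε : ℝ) : ℂ) + y * I)‖ ≤ K * (2 * ε) := by
        apply hp.bound' hy0 (by linarith [hy.2])
        rw [abs_of_neg (by linarith)]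
        linarith [hy.2]
      have h4 : (2 : ℂ) - (q - (((q - ε : ℝ) : ℂ) + y * I - η * I)) / ε - 1
          = (((y - η) / ε : ℝ) : ℂ) * I := by
        push_cast
        field_simp
        ring
      have h5 : ‖(((y - η) / ε : ℝ) : ℂ) * I‖ ≤ y / ε := by
        rw [norm_mul, norm_I, mul_one, norm_real, Real.norm_eq_abs, abs_div, abs_of_pos hε]
        gcongr
        rw [abs_le]; constructor <;> linarith [hy.1]
      have h6 : f (((q - ε : ℝ) : ℂ) + y * I) - φ (((q - ε : ℝ) : ℂ) + y * I)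
          = ((((y - η) / ε : ℝ) : ℂ) * I) * φ (((q - ε : ℝ) : ℂ) + y * I) := by
        rw [← h4]
        simp only [hf]
        ring
      rw [h6, norm_mul]
      calc _ ≤ y / ε * ‖φ (((q - ε : ℝ) : ℂ) + y * I)‖ := by gcongr
        _ = (y * ‖φ (((q - ε : ℝ) : ℂ) + y * I)‖) / ε := by ring
        _ ≤ (K * (2 * ε)) / ε := by gcongr
        _ = K * 2 := by field_simp
    have h2 := intervalIntegral.norm_integral_le_of_norm_le_const h1
    rw [abs_of_nonneg (by linarith)] at h2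
    apply h2.trans
    gcongr
    linarith
  set A1 := ∫ x in (q - ε)..q, φ (x + ε * I)
  set A2 := ∫ x in (q - 2 * ε)..(q - ε), f (x + ε * I)
  set A3 := ∫ y in η..ε, φ (q + y * I)
  set A4 := ∫ y in η..ε, f (((q - 2 * ε : ℝ) : ℂ) + y * I)
  set A5 := ∫ y in η..ε, f (((q - ε : ℝ) : ℂ) + y * I)
  set A6 := ∫ y in η..ε, φ (((q - ε : ℝ) : ℂ) + y * I)
  have e1 : A2 - I * A5 + I * A4 + (A1 - I * A3 + I * A6)
      = A1 + A2 - I * A3 + I * A4 - I * (A5 - A6) := by ring
  rw [e1]
  have n1 : ‖I * A3‖ ≤ K * 1 * ε := by rw [norm_mul, norm_I, one_mul]; exact t3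
  have n2 : ‖I * A4‖ ≤ K * 3 * ε := by rw [norm_mul, norm_I, one_mul]; exact t4
  have n3 : ‖I * (A5 - A6)‖ ≤ K * 2 * ε := by rw [norm_mul, norm_I, one_mul]; exact t5
  calc _ ≤ ‖A1‖ + ‖A2‖ + ‖I * A3‖ + ‖I * A4‖ + ‖I * (A5 - A6)‖ := by
        refine (norm_sub_le _ _).trans (add_le_add_left ?_ _)
        refine (norm_add_le _ _).trans (add_le_add_left ?_ _)
        refine (norm_sub_le _ _).trans (add_le_add_left ?_ _)
        exact norm_add_le _ _
    _ ≤ K * 2 * ε + K * 6 * ε + K * 1 * ε + K * 3 * ε + K * 2 * ε := by gcongr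
    _ = _ := by ring

/-- Trapezoid function. -/
noncomputable def trap (p q ε x : ℝ) : ℝ := max 0 (min 1 (min ((x - p) / ε - 1) ((q - x) / ε - 1)))

lemma trap_continuous (p q ε : ℝ) : Continuous (trap p q ε) := by
  unfold trap; fun_prop

lemma trap_nonneg (p q ε x : ℝ) : 0 ≤ trap p q ε x := le_max_left _ _

lemma trap_le_one (p q ε x : ℝ) : trap p q ε x ≤ 1 := by
  unfold trap
  apply max_le (by norm_num) (min_le_left _ _)

lemma trap_eq_zero_left {p q ε x : ℝ} (hε : 0 < ε) (h : x ≤ p + ε) : trap p q ε x = 0 := by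
  unfold trap
  apply max_eq_left
  apply (min_le_right _ _).trans
  apply (min_le_left _ _).trans
  rw [sub_nonpos, div_le_one hε]; linarith

lemma trap_eq_zero_right {p q ε x : ℝ} (hε : 0 < ε) (h : q - ε ≤ x) : trap p q ε x = 0 := by
  unfold trap
  apply max_eq_left
  apply (min_le_right _ _).trans
  apply (min_le_right _ _).trans
  rw [sub_nonpos, div_le_one hε]; linarith

lemma trap_left {p q ε x : ℝ} (hε : 0 < ε) (hpq : 4 * ε ≤ q - p) (h1 : p + ε ≤ x)
    (h2 : x ≤ p + 2 * ε) : trap p q ε x = (x - p) / ε - 1 := by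
  unfold trap
  have a1 : 1 ≤ (x - p) / ε := by rw [le_div_iff₀ hε]; linarith
  have a2 : (x - p) / ε ≤ 2 := by rw [div_le_iff₀ hε]; linarith
  have a3 : 2 ≤ (q - x) / ε := by rw [le_div_iff₀ hε]; linarith
  rw [min_eq_left (by linarith : (x - p) / ε - 1 ≤ (q - x) / ε - 1), min_eq_right (by linarith),
    max_eq_right (by linarith)]

lemma trap_right {p q ε x : ℝ} (hε : 0 < ε) (hpq : 4 * ε ≤ q - p) (h1 : q - 2 * ε ≤ x)
    (h2 : x ≤ q - ε) : trap p q ε x = (q - x) / ε - 1 := by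
  unfold trap
  have a1 : 1 ≤ (q - x) / ε := by rw [le_div_iff₀ hε]; linarith
  have a2 : (q - x) / ε ≤ 2 := by rw [div_le_iff₀ hε]; linarith
  have a3 : 2 ≤ (x - p) / ε := by rw [le_div_iff₀ hε]; linarith
  rw [min_eq_right (by linarith : (q - x) / ε - 1 ≤ (x - p) / ε - 1), min_eq_right (by linarith),
    max_eq_right (by linarith)]

lemma trap_mid {p q ε x : ℝ} (hε : 0 < ε) (h1 : p + 2 * ε ≤ x)
    (h2 : x ≤ q - 2 * ε) : trap p q ε x = 1 := by
  unfold trap
  have a1 : 2 ≤ (x - p) / ε := by rw [le_div_iff₀ hε]; linarith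
  have a2 : 2 ≤ (q - x) / ε := by rw [le_div_iff₀ hε]; linarith
  rw [min_eq_left (le_min (by linarith) (by linarith)), max_eq_right (by norm_num)]

lemma line_continuous {φ : ℂ → ℂ} (hφ : DifferentiableOn ℂ φ {w | 0 < w.im}) {η : ℝ}
    (hη : 0 < η) : Continuous (fun x : ℝ => φ (x + η * I)) := by
  have hop : IsOpen {w : ℂ | 0 < w.im} := isOpen_lt continuous_const continuous_im
  rw [continuous_iff_continuousAt]
  intro x
  have h1 : (x : ℂ) + η * I ∈ {w : ℂ | 0 < w.im} := by simpa using hη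
  have h2 := (hφ.differentiableAt (hop.mem_nhds h1)).continuousAt
  exact ContinuousAt.comp (f := fun x : ℝ => (x : ℂ) + η * I) h2 (by fun_prop)

lemma int_trap {φ : ℂ → ℂ} (hφ : DifferentiableOn ℂ φ {w | 0 < w.im}) {K p q ε : ℝ}
    (hε : 0 < ε) (hε7 : ε ≤ 7) (hpq : 4 * ε ≤ q - p) (hp : Good φ K p) (hq : Good φ K q)
    {η : ℝ} (hη : 0 < η) (hηε : η ≤ ε) :
    ‖∫ x in p..q, ((1 - trap p q ε x : ℝ) : ℂ) * φ (x + η * I)‖ ≤ 28 * K * ε := by
  have hc := line_continuous hφ hη
  have hint : ∀ a b : ℝ, IntervalIntegrable (fun x : ℝ => ((1 - trap p q ε x : ℝ) : ℂ) *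
      φ (x + η * I)) volume a b := by
    intro a b
    apply Continuous.intervalIntegrable
    exact (continuous_ofReal.comp (continuous_const.sub (trap_continuous p q ε))).mul hc
  rw [← intervalIntegral.integral_add_adjacent_intervals (hint p (p + ε)) (hint _ q),
    ← intervalIntegral.integral_add_adjacent_intervals (hint (p + ε) (p + 2 * ε)) (hint _ q),
    ← intervalIntegral.integral_add_adjacent_intervals (hint (p + 2 * ε) (q - 2 * ε)) (hint _ q),
    ← intervalIntegral.integral_add_adjacent_intervals (hint (q - 2 * ε) (q - ε)) (hint _ q)]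
  have e1 : ∫ x in p..(p + ε), ((1 - trap p q ε x : ℝ) : ℂ) * φ (x + η * I)
      = ∫ x in p..(p + ε), φ (x + η * I) := by
    apply intervalIntegral.integral_congr
    intro x hx
    rw [uIcc_of_le (by linarith)] at hx
    simp only
    rw [trap_eq_zero_left hε hx.2]; simp
  have e2 : ∫ x in (p + ε)..(p + 2 * ε), ((1 - trap p q ε x : ℝ) : ℂ) * φ (x + η * I)
      = ∫ x in (p + ε)..(p + 2 * ε), ((2 - (x - p) / ε : ℝ) : ℂ) * φ (x + η * I) := by
    apply intervalIntegral.integral_congr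
    intro x hx
    rw [uIcc_of_le (by linarith)] at hx
    simp only
    rw [trap_left hε hpq hx.1 hx.2]
    congr 2
    ring
  have e3 : ∫ x in (p + 2 * ε)..(q - 2 * ε), ((1 - trap p q ε x : ℝ) : ℂ) * φ (x + η * I)
      = 0 := by
    have : ∫ x in (p + 2 * ε)..(q - 2 * ε), ((1 - trap p q ε x : ℝ) : ℂ) * φ (x + η * I)
      = ∫ x in (p + 2 * ε)..(q - 2 * ε), (0 : ℂ) := by
      apply intervalIntegral.integral_congr
      intro x hx
      rw [uIcc_of_le (by linarith)] at hx
      simp only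
      rw [trap_mid hε hx.1 hx.2]
      simp
    rw [this]; simp
  have e4 : ∫ x in (q - 2 * ε)..(q - ε), ((1 - trap p q ε x : ℝ) : ℂ) * φ (x + η * I)
      = ∫ x in (q - 2 * ε)..(q - ε), ((2 - (q - x) / ε : ℝ) : ℂ) * φ (x + η * I) := by
    apply intervalIntegral.integral_congr
    intro x hx
    rw [uIcc_of_le (by linarith)] at hx
    simp only
    rw [trap_right hε hpq hx.1 hx.2]
    congr 2
    ring
  have e5 : ∫ x in (q - ε)..q, ((1 - trap p q ε x : ℝ) : ℂ) * φ (x + η * I)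
      = ∫ x in (q - ε)..q, φ (x + η * I) := by
    apply intervalIntegral.integral_congr
    intro x hx
    rw [uIcc_of_le (by linarith)] at hx
    simp only
    rw [trap_eq_zero_right hε hx.1]; simp
  rw [e1, e2, e3, e4, e5, zero_add, ← add_assoc]
  have := int_corner hφ hε hε7 hp hη hηε
  have := int_corner' hφ hε hε7 hq hη hηε
  calc _ ≤ _ := norm_add_le _ _
    _ ≤ 14 * K * ε + 14 * K * ε := by gcongr
    _ = _ := by ring

end Pool.Agent.Lib.P64ccd3
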