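import Pool.Agent.Lib.P64ccd3.Part2

set_option autoImplicit false

open Complex MeasureTheory Set Filter Topology

namespace Pool.Agent.Lib.P64ccd3

/-- Set of pairs which are the end points of the components of `U`. -/
def comps (U : Set ℝ) : Set (ℝ × ℝ) :=
  {j | j.1 < j.2 ∧ Ioo j.1 j.2 ⊆ U ∧ j.1 ∉ U ∧ j.2 ∉ U}

lemma comps_disjoint (U : Set ℝ) : (comps U).PairwiseDisjoint (fun j => Ioo j.1 j.2) := by
  intro i hi j hj hij
  simp only [Function.onFun]
  rw [Set.disjoint_left]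
  intro x hxi hxj
  apply hij
  obtain ⟨hi1, hi2, hi3, hi4⟩ := hi
  obtain ⟨hj1, hj2, hj3, hj4⟩ := hj
  have e1 : i.1 = j.1 := by
    rcases lt_trichotomy i.1 j.1 with h | h | h
    · exact absurd (hi2 ⟨h, hxj.1.trans hxi.2⟩) hj3
    · exact h
    · exact absurd (hj2 ⟨h, hxi.1.trans hxj.2⟩) hi3
  have e2 : i.2 = j.2 := by
    rcases lt_trichotomy i.2 j.2 with h | h | h
    · exact absurd (hj2 ⟨hxj.1.trans hxi.2, h⟩) hi4
    · exact h
    · exact absurd (hi2 ⟨hxi.1.trans hxj.2, h⟩) hj4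
  exact Prod.ext e1 e2

lemma comps_countable (U : Set ℝ) : (comps U).Countable :=
  (comps_disjoint U).countable_of_isOpen (fun _ _ => isOpen_Ioo)
    (fun _ hj => nonempty_Ioo.mpr hj.1)

lemma iUnion_comps {U : Set ℝ} (hU : IsOpen U) {a b : ℝ} (hab : U ⊆ Ioo a b) :
    ⋃ j : comps U, Ioo j.1.1 j.1.2 = U := by
  apply Subset.antisymm
  · apply iUnion_subset
    intro j
    exact j.2.2.1
  · intro x hx
    have hcl : IsClosed Uᶜ := hU.isClosed_compl
    have ha : a ∉ U := fun h => by have := (hab h).1; exact lt_irrefl _ this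
    have hb : b ∉ U := fun h => by have := (hab h).2; exact lt_irrefl _ this
    set p := sSup (Uᶜ ∩ Iic x) with hp
    set q := sInf (Uᶜ ∩ Ici x) with hq
    have hp1 : (Uᶜ ∩ Iic x).Nonempty := ⟨a, ha, (hab hx).1.le⟩
    have hp2 : BddAbove (Uᶜ ∩ Iic x) := ⟨x, fun y hy => hy.2⟩
    have hq1 : (Uᶜ ∩ Ici x).Nonempty := ⟨b, hb, (hab hx).2.le⟩
    have hq2 : BddBelow (Uᶜ ∩ Ici x) := ⟨x, fun y hy => hy.2⟩
    have hpm : p ∈ Uᶜ ∩ Iic x := (hcl.inter isClosed_Iic).csSup_mem hp1 hp2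
    have hqm : q ∈ Uᶜ ∩ Ici x := (hcl.inter isClosed_Ici).csInf_mem hq1 hq2
    have hpx : p < x := lt_of_le_of_ne hpm.2 (fun h => hpm.1 (h ▸ hx))
    have hqx : x < q := lt_of_le_of_ne hqm.2 (fun h => hqm.1 (h ▸ hx))
    rw [mem_iUnion]
    refine ⟨⟨(p, q), hpx.trans hqx, ?_, hpm.1, hqm.1⟩, hpx, hqx⟩
    intro y hy
    by_contra hyU
    rcases le_total y x with h | h
    · have := le_csSup hp2 ⟨hyU, h⟩
      exact absurd hy.1 (not_lt.mpr this)
    · have := csInf_le hq2 ⟨hyU, h⟩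
      exact absurd hy.2 (not_lt.mpr this)

lemma hasSum_comps {U : Set ℝ} (hU : IsOpen U) {a b : ℝ} (hab : U ⊆ Ioo a b) {F : Type*}
    [NormedAddCommGroup F] [NormedSpace ℝ F] {f : ℝ → F} (hf : IntegrableOn f U) :
    HasSum (fun j : comps U => ∫ x in Ioo j.1.1 j.1.2, f x) (∫ x in U, f x) := by
  have : Countable (comps U) := (comps_countable U).to_subtype
  have h := hasSum_integral_iUnion (μ := volume) (f := f) (s := fun j : comps U => Ioo j.1.1 j.1.2)
    (fun _ => measurableSet_Ioo) (by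
      intro i j hij
      exact comps_disjoint U i.2 j.2 (fun h => hij (Subtype.ext h)))
    (by rw [iUnion_comps hU hab]; exact hf)
  rwa [iUnion_comps hU hab] at h

lemma hasSum_comps_length {U : Set ℝ} (hU : IsOpen U) {a b : ℝ} (hab : U ⊆ Ioo a b) :
    HasSum (fun j : comps U => j.1.2 - j.1.1) (volume.real U) := by
  have hfin : volume U ≠ ⊤ := ((measure_mono hab).trans_lt measure_Ioo_lt_top).ne
  have h := hasSum_comps hU hab (f := fun _ => (1 : ℝ)) (by
    rw [integrableOn_const_iff]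
    right
    exact lt_top_iff_ne_top.mpr hfin)
  simp only [integral_const, MeasurableSet.univ, measureReal_restrict_apply, univ_inter,
    smul_eq_mul, mul_one] at h
  have e : (fun j : comps U => j.1.2 - j.1.1) = fun j : comps U =>
      volume.real (Ioo j.1.1 j.1.2) := by
    funext j
    rw [Real.volume_real_Ioo_of_le j.2.1.le]
  rw [e]
  exact h

/-- comparing a sum with a dominating sum away from a finite set. -/
lemma hasSum_diff_le {ι : Type*} {F : Type*} [NormedAddCommGroup F] {f : ι → F}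
    {g : ι → ℝ} {A : F} {B : ℝ} (hf : HasSum f A) (hg : HasSum g B) (hfg : ∀ i, ‖f i‖ ≤ g i)
    (S : Finset ι) : ‖A - ∑ i ∈ S, f i‖ ≤ B - ∑ i ∈ S, g i := by
  classical
  have h1 : Tendsto (fun T : Finset ι => ‖(∑ i ∈ T, f i) - ∑ i ∈ S, f i‖) atTop
      (𝓝 ‖A - ∑ i ∈ S, f i‖) := (hf.sub_const _).norm
  have h2 : Tendsto (fun T : Finset ι => (∑ i ∈ T, g i) - ∑ i ∈ S, g i) atTop
      (𝓝 (B - ∑ i ∈ S, g i)) := hg.sub_const _
  apply le_of_tendsto_of_tendsto h1 h2
  filter_upwards [eventually_ge_atTop S] with T hT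
  rw [← Finset.sum_sdiff hT, ← Finset.sum_sdiff hT (f := g), add_sub_cancel_right,
    add_sub_cancel_right]
  exact (norm_sum_le _ _).trans (Finset.sum_le_sum (fun i _ => hfg i))

lemma comps_mem {P : Set ℝ} {a b : ℝ} (ha : a ∈ P) (hb : b ∈ P)
    {U : Set ℝ} (hU : U = Ioo a b \ P)
    {j : ℝ × ℝ} (hj : j ∈ comps U) : j.1 ∈ P ∧ j.2 ∈ P := by
  subst hU
  obtain ⟨h1, h2, h3, h4⟩ := hj
  have hm : (j.1 + j.2) / 2 ∈ Ioo a b \ P := h2 ⟨by linarith, by linarith⟩
  have ha1 : a ≤ j.1 := by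
    by_contra hlt
    push Not at hlt
    have : (j.1 + min a j.2) / 2 ∈ Ioo a b \ P := by
      apply h2
      have := min_le_left a j.2
      have := min_le_right a j.2
      have := lt_min hlt h1
      constructor <;> linarith
    have h5 := this.1.1
    have := min_le_left a j.2
    linarith
  have hb1 : j.2 ≤ b := by
    by_contra hlt
    push Not at hlt
    have : (j.2 + max b j.1) / 2 ∈ Ioo a b \ P := by
      apply h2
      have := le_max_left b j.1
      have := le_max_right b j.1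
      have := max_lt hlt h1
      constructor <;> linarith
    have h5 := this.1.2
    have := le_max_left b j.1
    linarith
  constructor
  · rcases eq_or_lt_of_le ha1 with h | h
    · rw [← h]; exact ha
    · by_contra hP
      exact h3 ⟨⟨h, by linarith [hm.1.2]⟩, hP⟩
  · rcases eq_or_lt_of_le hb1 with h | h
    · rw [h]; exact hb
    · by_contra hP
      exact h4 ⟨⟨by linarith [hm.1.1], h⟩, hP⟩

lemma setIntegral_Ioo_eq {p q : ℝ} (hpq : p ≤ q) (f : ℝ → ℂ) :
    ∫ x in Ioo p q, f x = ∫ x in p..q, f x := by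
  rw [intervalIntegral.integral_of_le hpq, integral_Ioc_eq_integral_Ioo]

lemma cont_integrableOn {U : Set ℝ} {a b : ℝ} (hab : U ⊆ Ioo a b)
    {f : ℝ → ℂ} (hf : Continuous f) : IntegrableOn f U := by
  apply IntegrableOn.mono_set _ (hab.trans Ioo_subset_Icc_self)
  exact hf.continuousOn.integrableOn_Icc

/-- Main estimate. -/
lemma key {P : Set ℝ} (hP : IsClosed P) {a b : ℝ} (ha : a ∈ P) (hb : b ∈ P) (hab7 : b - a ≤ 7)
    {φ : ℂ → ℂ} (hφ : DifferentiableOn ℂ φ {w | 0 < w.im}) {K : ℝ}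
    (hgood : ∀ p ∈ P, Good φ K p) {U : Set ℝ} (hU : U = Ioo a b \ P) (S : Finset (comps U))
    {ε : ℝ} (hε : 0 < ε)
    (hε7 : ε ≤ 7) (hS : ∀ j ∈ S, 4 * ε ≤ j.1.2 - j.1.1) {η : ℝ} (hη : 0 < η) (hηε : η ≤ ε) :
    ‖∫ x in U, ((1 - ∑ j ∈ S, trap j.1.1 j.1.2 ε x : ℝ) : ℂ) * φ (x + η * I)‖
      ≤ 4 * K * (volume.real U - ∑ j ∈ S, (j.1.2 - j.1.1)) + 28 * K * ε * S.card := by
  have hUo : IsOpen U := hU ▸ isOpen_Ioo.sdiff hP
  have hUab : U ⊆ Ioo a b := hU ▸ sdiff_subset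
  have hc := line_continuous hφ hη
  have hct : ∀ p q : ℝ, Continuous (fun x : ℝ => ((trap p q ε x : ℝ) : ℂ) * φ (x + η * I)) :=
    fun p q => (continuous_ofReal.comp (trap_continuous p q ε)).mul hc
  have e1 : ∫ x in U, ((1 - ∑ j ∈ S, trap j.1.1 j.1.2 ε x : ℝ) : ℂ) * φ (x + η * I)
      = (∫ x in U, φ (x + η * I)) - ∑ j ∈ S, ∫ x in U, ((trap j.1.1 j.1.2 ε x : ℝ) : ℂ)
        * φ (x + η * I) := by
    rw [← integral_finsetSum _ (fun j _ => cont_integrableOn hUab (hct _ _)),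
      ← integral_sub (cont_integrableOn hUab hc)]
    · congr 1
      ext x
      push_cast
      rw [sub_mul, one_mul, Finset.sum_mul]
    · apply integrable_finsetSum
      intro j _
      exact cont_integrableOn hUab (hct _ _)
  have e2 : ∀ j ∈ S, ∫ x in U, ((trap j.1.1 j.1.2 ε x : ℝ) : ℂ) * φ (x + η * I)
      = ∫ x in Ioo j.1.1 j.1.2, ((trap j.1.1 j.1.2 ε x : ℝ) : ℂ) * φ (x + η * I) := by
    intro j hj
    apply setIntegral_eq_of_subset_of_forall_sdiff_eq_zero hUo.measurableSet j.2.2.1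
    intro x hx
    have : trap j.1.1 j.1.2 ε x = 0 := by
      by_cases h : x ≤ j.1.1
      · exact trap_eq_zero_left hε (by linarith)
      · apply trap_eq_zero_right hε
        by_contra h2
        push Not at h h2
        exact hx.2 ⟨h, by linarith⟩
    rw [this]; simp
  have e3 : ∀ j ∈ S, ∫ x in Ioo j.1.1 j.1.2, ((trap j.1.1 j.1.2 ε x : ℝ) : ℂ) * φ (x + η * I)
      = (∫ x in Ioo j.1.1 j.1.2, φ (x + η * I))
        - ∫ x in j.1.1..j.1.2, ((1 - trap j.1.1 j.1.2 ε x : ℝ) : ℂ) * φ (x + η * I) := by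
    intro j hj
    have hle := j.2.1.le
    rw [setIntegral_Ioo_eq hle, setIntegral_Ioo_eq hle, ← intervalIntegral.integral_sub
      (hc.intervalIntegrable _ _)]
    · congr 1
      ext x
      push_cast
      ring
    · apply Continuous.intervalIntegrable
      exact (continuous_ofReal.comp (continuous_const.sub (trap_continuous _ _ _))).mul hc
  rw [e1, Finset.sum_congr rfl e2, Finset.sum_congr rfl e3, Finset.sum_sub_distrib]
  have h1 := hasSum_comps hUo hUab (f := fun x : ℝ => φ (x + η * I)) (cont_integrableOn hUab hc)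
  have h2 := (hasSum_comps_length hUo hUab).mul_left (4 * K)
  have h3 := hasSum_diff_le h1 h2 (by
    intro j
    rw [setIntegral_Ioo_eq j.2.1.le]
    have hj := comps_mem ha hb hU j.2
    have hj2 := j.2.2.1.trans hUab
    apply int_between hφ j.2.1.le _ (hgood _ hj.1) (hgood _ hj.2) hη (hηε.trans hε7)
    have h5 : Ioo j.1.1 j.1.2 ⊆ Ioo a b := hj2
    have := (Ioo_subset_Ioo_iff j.2.1).mp h5
    linarith [this.1, this.2]) S
  have h4 : ‖∑ j ∈ S, ∫ x in j.1.1..j.1.2, ((1 - trap j.1.1 j.1.2 ε x : ℝ) : ℂ) *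
      φ (x + η * I)‖ ≤ ∑ _j ∈ S, 28 * K * ε := by
    apply norm_sum_le_of_le
    intro j hj
    have hjm := comps_mem ha hb hU j.2
    exact int_trap hφ hε hε7 (hS j hj) (hgood _ hjm.1) (hgood _ hjm.2) hη hηε
  rw [Finset.sum_const, nsmul_eq_mul] at h4
  rw [← Finset.mul_sum, ← mul_sub] at h3
  calc _ = ‖((∫ x in U, φ (x + η * I)) - ∑ j ∈ S, ∫ x in Ioo j.1.1 j.1.2, φ (x + η * I))
        + ∑ j ∈ S, ∫ x in j.1.1..j.1.2, ((1 - trap j.1.1 j.1.2 ε x : ℝ) : ℂ) *
          φ (x + η * I)‖ := by congr 1; ring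
    _ ≤ _ := norm_add_le _ _
    _ ≤ 4 * K * (volume.real U - ∑ j ∈ S, (j.1.2 - j.1.1)) + S.card * (28 * K * ε) :=
        add_le_add h3 h4
    _ = _ := by ring

end Pool.Agent.Lib.P64ccd3
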