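import Pool.Agent.Lib.P64ccd3.Part3

set_option autoImplicit false

open Complex MeasureTheory Set Filter Topology

namespace Pool.Agent.Lib.P64ccd3

lemma ps_differentiableOn {c : ℕ → ℂ} {A : ℝ} (hA : ∀ n, ‖c n‖ ≤ A) :
    DifferentiableOn ℂ (ps c) (Metric.ball 0 1) := by
  intro z hz
  have hz1 : ‖z‖ < 1 := by simpa using hz
  obtain ⟨r, hr1, hr2⟩ := exists_between hz1
  have hr0 : 0 < r := lt_of_le_of_lt (norm_nonneg _) hr1
  have h := Complex.differentiableOn_tsum_of_summable_norm (u := fun n => A * r ^ n)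
    (F := fun n z => c n * z ^ n) (U := Metric.ball 0 r)
    ((summable_geometric_of_lt_one hr0.le hr2).mul_left A) (by intro n; fun_prop)
    Metric.isOpen_ball (by
      intro n w hw
      have hw' : ‖w‖ < r := by simpa using hw
      rw [norm_mul, norm_pow]
      exact mul_le_mul (hA n) (pow_le_pow_left₀ (norm_nonneg _) hw'.le n) (by positivity)
        ((norm_nonneg _).trans (hA n)))
  have hz2 : z ∈ Metric.ball (0 : ℂ) r := by simpa using hr1
  exact (h.differentiableAt (Metric.isOpen_ball.mem_nhds hz2)).differentiableWithinAt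

lemma norm_exp_lt_one {w : ℂ} (hw : 0 < w.im) : ‖exp (w * I)‖ < 1 := by
  rw [norm_exp_mul_I', Real.exp_lt_one_iff]; linarith

lemma up_differentiableOn {c : ℕ → ℂ} {A : ℝ} (hA : ∀ n, ‖c n‖ ≤ A) :
    DifferentiableOn ℂ (fun w => ps c (exp (w * I))) {w | 0 < w.im} := by
  apply (ps_differentiableOn hA).comp (f := fun w => exp (w * I))
  · fun_prop
  · intro w hw
    simpa using norm_exp_lt_one hw

lemma circleMap_eq (η θ : ℝ) : circleMap 0 (Real.exp (-η)) θ = exp ((θ + η * I) * I) := by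
  rw [circleMap, zero_add, add_mul, mul_assoc, I_mul_I, exp_add, mul_comm]
  congr 1
  push_cast
  congr 1
  ring

lemma mean_value {c : ℕ → ℂ} {A : ℝ} (hA : ∀ n, ‖c n‖ ≤ A) {η : ℝ} (hη : 0 < η) (α : ℝ) :
    ∫ x in α..(α + 2 * Real.pi), ps c (exp ((x + η * I) * I)) = 2 * Real.pi * c 0 := by
  have hr : Real.exp (-η) < 1 := by rw [Real.exp_lt_one_iff]; linarith
  have hr0 : 0 < Real.exp (-η) := Real.exp_pos _
  have h1 : DiffContOnCl ℂ (ps c) (Metric.ball 0 |Real.exp (-η)|) := by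
    rw [abs_of_pos hr0]
    apply DifferentiableOn.diffContOnCl
    rw [closure_ball _ hr0.ne']
    apply (ps_differentiableOn hA).mono
    intro z hz
    have : ‖z‖ ≤ Real.exp (-η) := by simpa using hz
    simpa using this.trans_lt hr
  have h2 := h1.circleAverage
  have h3 : ps c 0 = c 0 := by
    unfold ps
    rw [tsum_eq_single 0]
    · simp
    · intro n hn; simp [hn]
  rw [h3, Real.circleAverage_def] at h2
  have hper : Function.Periodic (fun x : ℝ => ps c (exp ((x + η * I) * I))) (2 * Real.pi) := by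
    intro x
    simp only
    congr 1
    rw [Complex.exp_eq_exp_iff_exists_int]
    exact ⟨1, by push_cast; ring⟩
  have h4 := hper.intervalIntegral_add_eq α 0
  rw [zero_add] at h4
  rw [h4]
  have h5 : ∫ θ in (0 : ℝ)..2 * Real.pi, ps c (circleMap 0 (Real.exp (-η)) θ)
      = ∫ θ in (0 : ℝ)..2 * Real.pi, ps c (exp ((θ + η * I) * I)) := by
    congr 1
    ext θ
    rw [circleMap_eq]
  rw [h5] at h2
  rw [← h2, Complex.real_smul]
  push_cast
  have : (Real.pi : ℂ) ≠ 0 := by exact_mod_cast Real.pi_ne_zero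
  field_simp

/-- coefficients of the forward tail -/
def fwd (a : ℕ → ℂ) (m : ℕ) : ℕ → ℂ := fun n => a (m + n)

/-- conjugated coefficients of the backward polynomial -/
noncomputable def bwd (a : ℕ → ℂ) (m : ℕ) : ℕ → ℂ :=
  fun l => if 1 ≤ l ∧ l ≤ m then (starRingEnd ℂ) (a (m - l)) else 0

lemma fwd_partial {a : ℕ → ℂ} {M : ℝ} {ξ : ℂ} (hξ : ‖ξ‖ = 1)
    (hM : ∀ N, ‖∑ n ∈ Finset.range N, a n * ξ ^ n‖ ≤ M) (m N : ℕ) :
    ‖∑ n ∈ Finset.range N, fwd a m n * ξ ^ n‖ ≤ 2 * M := by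
  have h1 : ξ ^ m * ∑ n ∈ Finset.range N, fwd a m n * ξ ^ n
      = (∑ n ∈ Finset.range (m + N), a n * ξ ^ n) - ∑ n ∈ Finset.range m, a n * ξ ^ n := by
    rw [Finset.sum_range_add, add_sub_cancel_left, Finset.mul_sum]
    apply Finset.sum_congr rfl
    intro n _
    unfold fwd
    ring
  have h2 : ‖∑ n ∈ Finset.range N, fwd a m n * ξ ^ n‖
      = ‖ξ ^ m * ∑ n ∈ Finset.range N, fwd a m n * ξ ^ n‖ := by
    rw [norm_mul, norm_pow, hξ]; simp
  rw [h2, h1]
  calc _ ≤ _ := norm_sub_le _ _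
    _ ≤ M + M := add_le_add (hM _) (hM _)
    _ = 2 * M := by ring

lemma conj_mul_self_of_norm_one {ξ : ℂ} (hξ : ‖ξ‖ = 1) : (starRingEnd ℂ) ξ * ξ = 1 := by
  rw [← Complex.normSq_eq_conj_mul_self, Complex.normSq_eq_norm_sq, hξ]; simp

lemma bwd_partial_aux {a : ℕ → ℂ} {ξ : ℂ} (hξ : ‖ξ‖ = 1) (m N : ℕ) :
    (starRingEnd ℂ) (∑ l ∈ Finset.range (N + 1), bwd a m l * ξ ^ l) * ξ ^ m
      = (∑ n ∈ Finset.range m, a n * ξ ^ n) - ∑ n ∈ Finset.range (m - N), a n * ξ ^ n := by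
  induction N with
  | zero => simp [bwd]
  | succ N ih =>
    rw [Finset.sum_range_succ, map_add, add_mul, ih]
    by_cases h : N + 1 ≤ m
    · have e1 : m - N = (m - (N + 1)) + 1 := by omega
      have e2 : bwd a m (N + 1) = (starRingEnd ℂ) (a (m - (N + 1))) := by
        unfold bwd; rw [if_pos ⟨by omega, h⟩]
      have e3 : ξ ^ m = ξ ^ (N + 1) * ξ ^ (m - (N + 1)) := by
        rw [← pow_add]; congr 1; omega
      have e4 : (starRingEnd ℂ) ξ ^ (N + 1) * ξ ^ (N + 1) = 1 := by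
        rw [← mul_pow, conj_mul_self_of_norm_one hξ, one_pow]
      rw [e1, Finset.sum_range_succ, e2, map_mul, conj_conj, map_pow]
      have e5 : a (m - (N + 1)) * (starRingEnd ℂ) ξ ^ (N + 1) * ξ ^ m
          = a (m - (N + 1)) * ξ ^ (m - (N + 1)) := by
        rw [e3]
        linear_combination (a (m - (N + 1)) * ξ ^ (m - (N + 1))) * e4
      rw [e5]
      ring
    · have e1 : m - N = m - (N + 1) := by omega
      have e2 : bwd a m (N + 1) = 0 := by
        unfold bwd; rw [if_neg (by omega)]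
      rw [e1, e2]; simp

lemma bwd_partial {a : ℕ → ℂ} {M : ℝ} {ξ : ℂ} (hξ : ‖ξ‖ = 1)
    (hM : ∀ N, ‖∑ n ∈ Finset.range N, a n * ξ ^ n‖ ≤ M) (m N : ℕ) :
    ‖∑ n ∈ Finset.range N, bwd a m n * ξ ^ n‖ ≤ 2 * M := by
  have hM0 : 0 ≤ M := (norm_nonneg _).trans (hM 0)
  rcases N with _ | N
  · simp; positivity
  · have h2 : ‖∑ n ∈ Finset.range (N + 1), bwd a m n * ξ ^ n‖
      = ‖(starRingEnd ℂ) (∑ n ∈ Finset.range (N + 1), bwd a m n * ξ ^ n) * ξ ^ m‖ := by
      rw [norm_mul, norm_pow, hξ, RCLike.norm_conj]; simp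
    rw [h2, bwd_partial_aux hξ]
    calc _ ≤ _ := norm_sub_le _ _
      _ ≤ M + M := add_le_add (hM _) (hM _)
      _ = 2 * M := by ring

lemma fwd_bound {a : ℕ → ℂ} {A : ℝ} (hA : ∀ n, ‖a n‖ ≤ A) (m n : ℕ) : ‖fwd a m n‖ ≤ A := hA _

lemma bwd_bound {a : ℕ → ℂ} {A : ℝ} (hA : ∀ n, ‖a n‖ ≤ A) (m n : ℕ) : ‖bwd a m n‖ ≤ A := by
  have hA0 : 0 ≤ A := (norm_nonneg _).trans (hA 0)
  unfold bwd
  split_ifs
  · rw [RCLike.norm_conj]; exact hA _
  · simpa using hA0

lemma ps_fwd {a : ℕ → ℂ} {A : ℝ} (hA : ∀ n, ‖a n‖ ≤ A) (m : ℕ) {z : ℂ} (hz : ‖z‖ < 1) :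
    ps a z = (∑ k ∈ Finset.range m, a k * z ^ k) + z ^ m * ps (fwd a m) z := by
  have hS := summable_of_bound hA hz
  unfold ps
  rw [← hS.sum_add_tsum_nat_add m, ← tsum_mul_left]
  congr 1
  apply tsum_congr
  intro n
  unfold fwd
  rw [add_comm m n]
  ring

lemma ps_bwd (a : ℕ → ℂ) (m : ℕ) (z : ℂ) :
    (starRingEnd ℂ) (ps (bwd a m) z) = ∑ k ∈ Finset.range m, a k * (starRingEnd ℂ) z ^ (m - k) := by
  unfold ps
  rw [tsum_eq_sum (s := Finset.range (m + 1))]
  · rw [Finset.sum_range_succ']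
    have e0 : bwd a m 0 = 0 := by unfold bwd; simp
    rw [e0, zero_mul, add_zero, map_sum, ← Finset.sum_range_reflect]
    apply Finset.sum_congr rfl
    intro k hk
    rw [Finset.mem_range] at hk
    have e1 : m - 1 - k + 1 = m - k := by omega
    have e2 : bwd a m (m - k) = (starRingEnd ℂ) (a k) := by
      unfold bwd
      rw [if_pos ⟨by omega, by omega⟩]
      congr 2
      omega
    rw [e1, e2, map_mul, conj_conj, map_pow]
  · intro n hn
    have : bwd a m n = 0 := by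
      unfold bwd
      rw [if_neg]
      simp only [Finset.mem_range] at hn
      omega
    rw [this, zero_mul]

end Pool.Agent.Lib.P64ccd3
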