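import Pool.Agent.Lib.P64ccd3.Part4

set_option autoImplicit false

open Complex MeasureTheory Set Filter Topology

namespace Pool.Agent.Lib.P64ccd3

lemma exp_line (x η : ℝ) : exp (((x : ℂ) + η * I) * I) = exp (x * I) * (Real.exp (-η) : ℂ) := by
  rw [add_mul, mul_assoc, I_mul_I, exp_add]
  congr 1
  push_cast
  congr 1
  ring

lemma conj_exp_real (x : ℝ) : (starRingEnd ℂ) (exp (x * I)) = exp (-(x * I)) := by
  rw [← exp_conj]
  congr 1
  simp

lemma decomp_bound {a : ℕ → ℂ} {A : ℝ} (hA : ∀ n, ‖a n‖ ≤ A) (m : ℕ) {η : ℝ} (hη : 0 < η)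
    (x : ℝ) :
    ‖ps (fwd a m) (exp ((x + η * I) * I)) + (starRingEnd ℂ) (ps (bwd a m) (exp ((x + η * I) * I)))
      - (Real.exp (m * η) : ℂ) * (exp (-(m * x * I)) * ps a (exp ((x + η * I) * I)))‖
      ≤ m * (A * (Real.exp (m * η) - Real.exp (-(m * η)))) := by
  have hz : ‖exp (((x : ℂ) + η * I) * I)‖ < 1 := by
    apply norm_exp_lt_one
    simpa using hη
  set E := exp (((x : ℂ) + η * I) * I) with hE
  have hE0 : E ≠ 0 := exp_ne_zero _
  have h1 := ps_fwd hA m hz
  have h2 := ps_bwd a m E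
  have hEm : (Real.exp (m * η) : ℂ) * exp (-(m * x * I)) * E ^ m = 1 := by
    rw [hE, ← Complex.exp_nat_mul, ofReal_exp, ← exp_add, ← exp_add, Complex.exp_eq_one_iff]
    refine ⟨0, ?_⟩
    push_cast
    ring_nf
    rw [I_sq]
    ring
  set c : ℂ := (Real.exp (m * η) : ℂ) * exp (-(m * x * I)) with hc
  have h3 : ps (fwd a m) E = c * ps a E - ∑ k ∈ Finset.range m, a k * (c * E ^ k) := by
    have : c * ps a E = (∑ k ∈ Finset.range m, a k * (c * E ^ k)) + c * E ^ m * ps (fwd a m) E := by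
      rw [h1, mul_add, Finset.mul_sum]
      congr 1
      · apply Finset.sum_congr rfl
        intro k _
        ring
      · ring
    rw [hEm, one_mul] at this
    rw [this]; ring
  have h4 : ps (fwd a m) E + (starRingEnd ℂ) (ps (bwd a m) E)
      - (Real.exp (m * η) : ℂ) * (exp (-(m * x * I)) * ps a E)
      = ∑ k ∈ Finset.range m, a k * ((starRingEnd ℂ) E ^ (m - k) - c * E ^ k) := by
    rw [h3, h2, ← mul_assoc, ← hc]
    simp only [mul_sub, Finset.sum_sub_distrib]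
    ring
  rw [h4]
  have h5 : ∀ k ∈ Finset.range m, ‖a k * ((starRingEnd ℂ) E ^ (m - k) - c * E ^ k)‖
      ≤ A * (Real.exp (m * η) - Real.exp (-(m * η))) := by
    intro k hk
    rw [Finset.mem_range] at hk
    have e1 : (starRingEnd ℂ) E ^ (m - k) = exp (-((m - k : ℕ) * x * I))
        * ((Real.exp (-((m - k : ℕ) * η)) : ℝ) : ℂ) := by
      rw [hE, exp_line, map_mul, conj_exp_real, conj_ofReal, mul_pow, ← Complex.exp_nat_mul,
        ofReal_exp, ← Complex.exp_nat_mul, ofReal_exp]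
      congr 1
      · congr 1; ring
      · congr 1; push_cast; ring
    have e2 : c * E ^ k = exp (-((m - k : ℕ) * x * I))
        * ((Real.exp ((m - k : ℕ) * η) : ℝ) : ℂ) := by
      rw [hc, hE, exp_line, mul_pow, ← Complex.exp_nat_mul, ofReal_exp, ofReal_exp,
        ← Complex.exp_nat_mul, ofReal_exp, ← exp_add, ← exp_add, ← exp_add, ← exp_add]
      congr 1
      push_cast [Nat.cast_sub hk.le]
      ring
    rw [e1, e2, ← mul_sub, norm_mul, norm_mul]
    have e3 : ‖exp (-(((m - k : ℕ) : ℂ) * x * I))‖ = 1 := by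
      rw [Complex.norm_exp]
      simp
    rw [e3, one_mul, ← ofReal_sub, norm_real, Real.norm_eq_abs]
    have hj : ((m - k : ℕ) : ℝ) ≤ m := by exact_mod_cast Nat.sub_le m k
    have hj0 : (0 : ℝ) ≤ ((m - k : ℕ) : ℝ) := Nat.cast_nonneg _
    have e4 : Real.exp (((m - k : ℕ) : ℝ) * η) ≤ Real.exp (m * η) := by
      apply Real.exp_le_exp.mpr; gcongr
    have e5 : Real.exp (-(m * η)) ≤ Real.exp (-(((m - k : ℕ) : ℝ) * η)) := by
      apply Real.exp_le_exp.mpr
      have := mul_le_mul_of_nonneg_right hj hη.le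
      linarith
    have e6 : Real.exp (-(((m - k : ℕ) : ℝ) * η)) ≤ Real.exp (((m - k : ℕ) : ℝ) * η) := by
      apply Real.exp_le_exp.mpr
      have : 0 ≤ ((m - k : ℕ) : ℝ) * η := mul_nonneg hj0 hη.le
      linarith
    rw [abs_of_nonpos (by linarith)]
    apply mul_le_mul (hA k) (by linarith) (by linarith) ((norm_nonneg _).trans (hA 0))
  calc _ ≤ ∑ k ∈ Finset.range m, A * (Real.exp (m * η) - Real.exp (-(m * η))) :=
        norm_sum_le_of_le _ h5
    _ = _ := by rw [Finset.sum_const, nsmul_eq_mul, Finset.card_range]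

/-- uniform local bounds on compact sets -/
lemma compact_bound {f : ℂ → ℂ} {Q : Set ℝ} (hQ : IsCompact Q)
    (hloc : ∀ x ∈ Q, ∃ r > 0, ∃ B : ℝ, ∀ w : ℂ, ‖w - x‖ < r → 0 < w.im → ‖f w‖ ≤ B) :
    ∃ r > 0, ∃ B : ℝ, ∀ x ∈ Q, ∀ η : ℝ, 0 < η → η < r → ‖f (x + η * I)‖ ≤ B := by
  apply hQ.induction_on (p := fun s => ∃ r > 0, ∃ B : ℝ, ∀ x ∈ s, ∀ η : ℝ, 0 < η → η < r →
    ‖f (x + η * I)‖ ≤ B)
  · exact ⟨1, one_pos, 0, fun x hx => absurd hx (notMem_empty x)⟩
  · rintro s t hst ⟨r, hr, B, h⟩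
    exact ⟨r, hr, B, fun x hx => h x (hst hx)⟩
  · rintro s t ⟨r, hr, B, h⟩ ⟨r', hr', B', h'⟩
    refine ⟨min r r', lt_min hr hr', max B B', ?_⟩
    rintro x (hx | hx) η h0 h1
    · exact (h x hx η h0 (h1.trans_le (min_le_left _ _))).trans (le_max_left _ _)
    · exact (h' x hx η h0 (h1.trans_le (min_le_right _ _))).trans (le_max_right _ _)
  · intro x hx
    obtain ⟨r, hr, B, h⟩ := hloc x hx
    refine ⟨Metric.ball x (r / 2), mem_nhdsWithin_of_mem_nhds (Metric.ball_mem_nhds _ (by linarith)),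
      r / 2, by linarith, B, ?_⟩
    intro y hy η h0 h1
    apply h
    · have e1 : (y : ℂ) + η * I - x = ((y - x : ℝ) : ℂ) + η * I := by push_cast; ring
      rw [e1]
      have := norm_le_add_im (y - x) η
      rw [Metric.mem_ball, Real.dist_eq] at hy
      rw [abs_of_pos h0] at this
      linarith
    · simpa using h0

end Pool.Agent.Lib.P64ccd3
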