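import Pool.Agent.Lib.P64ccd3.Part5

set_option autoImplicit false

open Complex MeasureTheory Set Filter Topology

namespace Pool.Agent.Lib.P64ccd3

lemma two_pi_le : 2 * Real.pi ≤ 7 := by linarith [Real.pi_lt_d2]

lemma two_pi_gt : 6 < 2 * Real.pi := by linarith [Real.pi_gt_three]

/-- Bessel inequality, count version. -/
lemma bessel_count {α C δ : ℝ} {v : ℝ → ℂ} (hv : Measurable v)
    (hb : ∀ x ∈ Ioc α (α + 2 * Real.pi), ‖v x‖ ≤ C) (hδ : 0 ≤ δ) (F : Finset ℕ)
    (hF : ∀ m ∈ F, 2 * Real.pi * δ ≤ ‖∫ x in Ioo α (α + 2 * Real.pi), exp (-(m * x * I)) * v x‖) :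
    F.card * δ ^ 2 ≤ C ^ 2 := by
  have hab : α < α + 2 * Real.pi := by linarith [Real.pi_pos]
  have hL2 : MemLp v 2 (volume.restrict (Ioc α (α + 2 * Real.pi))) := by
    apply MemLp.of_bound hv.aestronglyMeasurable C
    rw [ae_restrict_iff' measurableSet_Ioc]
    exact Eventually.of_forall hb
  have h := hasSum_sq_fourierCoeffOn hab hL2
  have h1 : ∀ m ∈ F, δ ≤ ‖fourierCoeffOn hab v (m : ℤ)‖ := by
    intro m hm
    rw [fourierCoeffOn_eq_integral]
    have e1 : ∫ x in α..(α + 2 * Real.pi), fourier (-(m : ℤ)) (x : AddCircle (α + 2 * Real.pi - α))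
        • v x = ∫ x in Ioo α (α + 2 * Real.pi), exp (-(m * x * I)) * v x := by
      rw [setIntegral_Ioo_eq hab.le]
      apply intervalIntegral.integral_congr
      intro x _
      simp only [smul_eq_mul]
      rw [fourier_coe_apply]
      congr 2
      have : (Real.pi : ℂ) ≠ 0 := by exact_mod_cast Real.pi_ne_zero
      push_cast
      rw [add_sub_cancel_left]
      field_simp
    rw [e1, norm_smul, add_sub_cancel_left]
    have := hF m hm
    have hpi : 0 < 2 * Real.pi := by positivity
    rw [Real.norm_eq_abs, abs_of_pos (by positivity)]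
    rw [div_mul_eq_mul_div, one_mul, le_div_iff₀ hpi]
    linarith
  have h2 : ∑ m ∈ F, ‖fourierCoeffOn hab v (m : ℤ)‖ ^ 2
      ≤ ((α + 2 * Real.pi) - α)⁻¹ • ∫ x in α..(α + 2 * Real.pi), ‖v x‖ ^ 2 := by
    have := sum_le_hasSum (F.map Nat.castEmbedding) (fun i _ => by positivity) h
    rw [Finset.sum_map] at this
    exact this
  have h3 : ∫ x in α..(α + 2 * Real.pi), ‖v x‖ ^ 2 ≤ C ^ 2 * (2 * Real.pi) := by
    have h4 : ‖∫ x in α..(α + 2 * Real.pi), ‖v x‖ ^ 2‖ ≤ C ^ 2 * |α + 2 * Real.pi - α| := by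
      apply intervalIntegral.norm_integral_le_of_norm_le_const
      intro x hx
      rw [uIoc_of_le hab.le] at hx
      rw [Real.norm_eq_abs, abs_of_nonneg (by positivity)]
      exact pow_le_pow_left₀ (norm_nonneg _) (hb x hx) 2
    rw [add_sub_cancel_left, abs_of_pos (by positivity)] at h4
    exact (le_abs_self _).trans h4
  have h5 : (F.card : ℝ) * δ ^ 2 ≤ ∑ m ∈ F, ‖fourierCoeffOn hab v (m : ℤ)‖ ^ 2 := by
    rw [← nsmul_eq_mul, ← Finset.sum_const]
    apply Finset.sum_le_sum
    intro m hm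
    exact pow_le_pow_left₀ hδ (h1 m hm) 2
  have hpi : 0 < 2 * Real.pi := by positivity
  calc _ ≤ _ := h5
    _ ≤ _ := h2
    _ ≤ (2 * Real.pi)⁻¹ * (C ^ 2 * (2 * Real.pi)) := by
        rw [smul_eq_mul, add_sub_cancel_left]
        gcongr
    _ = C ^ 2 := by field_simp

theorem tendsto_zero {a : ℕ → ℂ} {P : Set ℝ} (hP : IsClosed P) {α : ℝ} (hα : α ∈ P)
    (hβ : α + 2 * Real.pi ∈ P) {M : ℝ}
    (hM : ∀ p ∈ P, ∀ N, ‖∑ n ∈ Finset.range N, a n * (exp (p * I)) ^ n‖ ≤ M)
    (hreg : ∀ x ∈ Ioo α (α + 2 * Real.pi), x ∉ P → ∃ r > 0, ∃ B : ℝ, ∀ w : ℂ, ‖w - x‖ < r →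
      0 < w.im → ‖ps a (exp (w * I))‖ ≤ B) :
    Tendsto a atTop (𝓝 0) := by
  have hnorm1 : ∀ p : ℝ, ‖exp ((p : ℂ) * I)‖ = 1 := by
    intro p; rw [norm_exp_mul_I']; simp
  have hA : ∀ n, ‖a n‖ ≤ 2 * M := coeff_bound (hnorm1 α) (hM α hα)
  have hM0 : 0 ≤ M := (norm_nonneg _).trans (hM α hα 0)
  have hA0 : 0 ≤ 2 * M := by linarith
  by_contra hnot
  rw [Metric.tendsto_atTop] at hnot
  push Not at hnot
  obtain ⟨δ, hδ, hinf⟩ := hnot
  have hinf' : {m : ℕ | δ ≤ ‖a m‖}.Infinite := by
    apply Set.infinite_of_not_bddAbove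
    rintro ⟨N, hN⟩
    obtain ⟨n, hn1, hn2⟩ := hinf (N + 1)
    rw [dist_zero_right] at hn2
    have := hN hn2
    omega
  set β := α + 2 * Real.pi with hβdef
  have hab : α < β := by rw [hβdef]; linarith [Real.pi_pos]
  have hab7 : β - α ≤ 7 := by rw [hβdef, add_sub_cancel_left]; exact two_pi_le
  obtain ⟨U, hU⟩ : ∃ U, U = Ioo α β \ P := ⟨_, rfl⟩
  have hUo : IsOpen U := hU ▸ isOpen_Ioo.sdiff hP
  have hUab : U ⊆ Ioo α β := hU ▸ sdiff_subset
  set K : ℝ := 8 * (2 * M) with hK
  have hK0 : 0 ≤ K := by positivity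
  have hgf : ∀ m, ∀ p ∈ P, Good (fun w => ps (fwd a m) (exp (w * I))) K p :=
    fun m p hp => good_ps (fun N => fwd_partial (hnorm1 p) (hM p hp) m N)
  have hgb : ∀ m, ∀ p ∈ P, Good (fun w => ps (bwd a m) (exp (w * I))) K p :=
    fun m p hp => good_ps (fun N => bwd_partial (hnorm1 p) (hM p hp) m N)
  -- choose S
  obtain ⟨S, hS⟩ : ∃ S : Finset (comps U), 4 * K * (volume.real U - ∑ j ∈ S, (j.1.2 - j.1.1))
      ≤ δ / 4 := by
    have h1 := hasSum_comps_length hUo hUab
    have h2 : Tendsto (fun S : Finset (comps U) => 4 * K * (volume.real U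
        - ∑ j ∈ S, (j.1.2 - j.1.1))) atTop (𝓝 (4 * K * (volume.real U - volume.real U))) :=
      (tendsto_const_nhds.sub h1).const_mul _
    rw [sub_self, mul_zero] at h2
    exact (h2.eventually (eventually_le_nhds (by positivity : (0 : ℝ) < δ / 4))).exists
  obtain ⟨ε, hε, hε7, hεS, hεK⟩ : ∃ ε : ℝ, 0 < ε ∧ ε ≤ 7 ∧ (∀ j ∈ S, 4 * ε ≤ j.1.2 - j.1.1) ∧
      28 * K * ε * S.card ≤ δ / 4 := by
    have h1 : ∀ᶠ ε : ℝ in 𝓝[>] 0, 0 < ε := eventually_mem_nhdsWithin
    have h2 : ∀ᶠ ε : ℝ in 𝓝[>] 0, ε ≤ 7 :=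
      (eventually_le_nhds (by norm_num : (0 : ℝ) < 7)).filter_mono nhdsWithin_le_nhds
    have h3 : ∀ᶠ ε : ℝ in 𝓝[>] 0, ∀ j ∈ S, 4 * ε ≤ j.1.2 - j.1.1 := by
      rw [Filter.eventually_all_finset]
      intro j _
      have hj : 0 < j.1.2 - j.1.1 := by linarith [j.2.1]
      have ht : Tendsto (fun ε : ℝ => 4 * ε) (𝓝 0) (𝓝 (4 * 0)) :=
        (continuous_const.mul continuous_id).tendsto 0
      rw [mul_zero] at ht
      exact (ht.eventually (eventually_le_nhds hj)).filter_mono nhdsWithin_le_nhds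
    have h4 : ∀ᶠ ε : ℝ in 𝓝[>] 0, 28 * K * ε * S.card ≤ δ / 4 := by
      have ht : Tendsto (fun ε : ℝ => 28 * K * ε * S.card) (𝓝 0) (𝓝 (28 * K * 0 * S.card)) :=
        ((continuous_const.mul continuous_id).mul continuous_const).tendsto 0
      rw [mul_zero, zero_mul] at ht
      exact (ht.eventually (eventually_le_nhds (by positivity))).filter_mono nhdsWithin_le_nhds
    exact (h1.and (h2.and (h3.and h4))).exists
  set T : ℝ → ℝ := fun x => ∑ j ∈ S, trap j.1.1 j.1.2 ε x with hT
  have hTc : Continuous T := continuous_finsetSum _ (fun j _ => trap_continuous _ _ _)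
  have hT0 : ∀ x, 0 ≤ T x := fun x => Finset.sum_nonneg (fun j _ => trap_nonneg _ _ _ _)
  have hT1 : ∀ x, T x ≤ S.card := by
    intro x
    calc T x ≤ ∑ j ∈ S, (1 : ℝ) := Finset.sum_le_sum (fun j _ => trap_le_one _ _ _ _)
      _ = S.card := by simp
  -- weight
  classical
  set V : ℝ → ℝ := fun x => if x ∈ P then 1 else T x with hV
  have hVm : Measurable V := Measurable.ite hP.measurableSet measurable_const hTc.measurable
  have hV0 : ∀ x, 0 ≤ V x := by
    intro x; simp only [hV]; split_ifs; · norm_num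
    · exact hT0 x
  have hV1 : ∀ x, V x ≤ 1 + S.card := by
    intro x; simp only [hV]; split_ifs
    · have : (0 : ℝ) ≤ S.card := Nat.cast_nonneg _
      linarith
    · linarith [hT1 x]
  -- compact set
  set Q : Set ℝ := ⋃ j ∈ S, Icc (j.1.1 + ε) (j.1.2 - ε) with hQ
  have hQc : IsCompact Q := S.isCompact_biUnion (fun j _ => isCompact_Icc)
  have hQU : Q ⊆ U := by
    intro x hx
    simp only [hQ, mem_iUnion] at hx
    obtain ⟨j, _, hx1, hx2⟩ := hx
    exact j.2.2.1 ⟨by linarith, by linarith⟩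
  have hTQ : ∀ x, x ∉ Q → T x = 0 := by
    intro x hx
    apply Finset.sum_eq_zero
    intro j hj
    by_cases h : x ≤ j.1.1 + ε
    · exact trap_eq_zero_left hε h
    · apply trap_eq_zero_right hε
      by_contra h2
      push Not at h h2
      apply hx
      simp only [hQ, mem_iUnion]
      exact ⟨j, hj, h.le, h2.le⟩
  obtain ⟨r0, hr0, B0, hB0⟩ := compact_bound (f := fun w => ps a (exp (w * I))) hQc (by
    intro x hx
    have hxU := hQU hx
    rw [hU] at hxU
    exact hreg x hxU.1 hxU.2)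
  set C : ℝ := M + S.card * |B0| with hC
  have hC0 : 0 ≤ C := by positivity
  have hVb : ∀ x η : ℝ, 0 < η → η < r0 → ‖(V x : ℂ) * ps a (exp ((x + η * I) * I))‖ ≤ C := by
    intro x η h0 h1
    by_cases hx : x ∈ P
    · have e1 : V x = 1 := by simp only [hV]; rw [if_pos hx]
      rw [e1, ofReal_one, one_mul]
      have hz : ‖exp (((x : ℂ) + η * I) * I)‖ < 1 := norm_exp_lt_one (by simpa using h0)
      have h2 := ps_abel (hnorm1 x) hz (hM x hx)
      have h3 : ‖exp (((x : ℂ) + η * I) * I) - exp (x * I)‖ = 1 - ‖exp (((x : ℂ) + η * I) * I)‖ := by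
        rw [exp_line, norm_mul, hnorm1, one_mul, norm_real, Real.norm_eq_abs,
          abs_of_pos (Real.exp_pos _)]
        have e2 : exp ((x : ℂ) * I) * (Real.exp (-η) : ℂ) - exp (x * I)
            = exp (x * I) * ((Real.exp (-η) - 1 : ℝ) : ℂ) := by push_cast; ring
        rw [e2, norm_mul, hnorm1, one_mul, norm_real, Real.norm_eq_abs, abs_of_nonpos]
        · ring
        · have : Real.exp (-η) ≤ 1 := by rw [Real.exp_le_one_iff]; linarith
          linarith
      rw [h3] at h2
      have h4 := le_of_mul_le_mul_right h2 (by linarith)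
      have : 0 ≤ S.card * |B0| := by positivity
      linarith
    · have e1 : V x = T x := by simp only [hV]; rw [if_neg hx]
      rw [e1]
      by_cases hxQ : x ∈ Q
      · rw [norm_mul, norm_real, Real.norm_eq_abs, abs_of_nonneg (hT0 x)]
        calc T x * ‖ps a (exp ((x + η * I) * I))‖ ≤ S.card * |B0| :=
              mul_le_mul (hT1 x) ((hB0 x hxQ η h0 h1).trans (le_abs_self _)) (norm_nonneg _)
                (Nat.cast_nonneg _)
          _ ≤ C := by rw [hC]; linarith
      · rw [hTQ x hxQ]; simpa using hC0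
  -- choose F
  obtain ⟨n0, hn0⟩ := exists_nat_gt (C ^ 2 / (δ / 4) ^ 2)
  obtain ⟨F, hF1, hF2⟩ := hinf'.exists_subset_card_eq n0
  -- choose η
  obtain ⟨η, hη, hηr, hηε, hηm, hηd⟩ : ∃ η : ℝ, 0 < η ∧ η < r0 ∧ η ≤ ε ∧
      (∀ m ∈ F, Real.exp (m * η) ≤ 2) ∧ (∀ m ∈ F, 2 * Real.pi * ((1 + S.card) *
        (m * (2 * M * (Real.exp (m * η) - Real.exp (-(m * η)))))) ≤ δ) := by
    have h1 : ∀ᶠ η : ℝ in 𝓝[>] 0, 0 < η := eventually_mem_nhdsWithin
    have h2 : ∀ᶠ η : ℝ in 𝓝[>] 0, η < r0 :=
      (eventually_lt_nhds hr0).filter_mono nhdsWithin_le_nhds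
    have h2' : ∀ᶠ η : ℝ in 𝓝[>] 0, η ≤ ε :=
      (eventually_le_nhds hε).filter_mono nhdsWithin_le_nhds
    have h3 : ∀ᶠ η : ℝ in 𝓝[>] 0, ∀ m ∈ F, Real.exp (m * η) ≤ 2 := by
      rw [Filter.eventually_all_finset]
      intro m _
      have ht : Tendsto (fun η : ℝ => Real.exp (m * η)) (𝓝 0) (𝓝 (Real.exp (m * 0))) :=
        (Real.continuous_exp.comp (continuous_const.mul continuous_id)).tendsto 0
      rw [mul_zero, Real.exp_zero] at ht
      exact (ht.eventually (eventually_le_nhds (by norm_num))).filter_mono nhdsWithin_le_nhds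
    have h4 : ∀ᶠ η : ℝ in 𝓝[>] 0, ∀ m ∈ F, 2 * Real.pi * ((1 + S.card) *
        (m * (2 * M * (Real.exp (m * η) - Real.exp (-(m * η)))))) ≤ δ := by
      rw [Filter.eventually_all_finset]
      intro m _
      have ht : Tendsto (fun η : ℝ => 2 * Real.pi * ((1 + S.card) *
        (m * (2 * M * (Real.exp (m * η) - Real.exp (-(m * η))))))) (𝓝 0)
          (𝓝 (2 * Real.pi * ((1 + S.card) *
        (m * (2 * M * (Real.exp (m * 0) - Real.exp (-(m * 0)))))))) := by
        apply Continuous.tendsto (f := fun η : ℝ => 2 * Real.pi * ((1 + S.card) *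
          (m * (2 * M * (Real.exp (m * η) - Real.exp (-(m * η)))))))
        fun_prop
      simp only [mul_zero, neg_zero, sub_self] at ht
      exact (ht.eventually (eventually_le_nhds hδ)).filter_mono nhdsWithin_le_nhds
    exact (h1.and (h2.and (h2'.and (h3.and h4)))).exists
  -- final estimate for each m
  have hgoal := bessel_count (α := α) (C := C) (δ := δ / 4)
    (v := fun x => (V x : ℂ) * ps a (exp ((x + η * I) * I)))
    (by
      apply (continuous_ofReal.measurable.comp hVm).mul
      exact (line_continuous (up_differentiableOn hA) hη).measurable)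
    (fun x _ => hVb x η hη hηr) (by positivity) F (by
    intro m hm
    have hmδ : δ ≤ ‖a m‖ := hF1 hm
    have hdf := up_differentiableOn (fwd_bound hA m)
    have hdb := up_differentiableOn (bwd_bound hA m)
    have hcf := line_continuous hdf hη
    have hcb := line_continuous hdb hη
    have hca := line_continuous (up_differentiableOn hA) hη
    have hcb' : Continuous (fun x : ℝ => (starRingEnd ℂ) (ps (bwd a m) (exp ((x + η * I) * I)))) :=
      continuous_conj.comp hcb
    set u : ℝ → ℂ := fun x => ps (fwd a m) (exp ((x + η * I) * I))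
      + (starRingEnd ℂ) (ps (bwd a m) (exp ((x + η * I) * I))) with hu
    have hcu : Continuous u := hcf.add hcb'
    have hmean : ∫ x in Ioo α β, u x = 2 * Real.pi * a m := by
      rw [setIntegral_Ioo_eq hab.le]
      have i1 : IntervalIntegrable (fun x : ℝ => ps (fwd a m) (exp ((x + η * I) * I))) volume α β :=
        hcf.intervalIntegrable _ _
      have i2 : IntervalIntegrable (fun x : ℝ => (starRingEnd ℂ)
          (ps (bwd a m) (exp ((x + η * I) * I)))) volume α β := hcb'.intervalIntegrable _ _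
      have e1 : ∫ x in α..β, (starRingEnd ℂ) (ps (bwd a m) (exp ((x + η * I) * I))) = 0 := by
        have := mean_value (bwd_bound hA m) hη α
        rw [intervalIntegral.integral_of_le hab.le] at this ⊢
        rw [integral_conj, this]
        have e0 : bwd a m 0 = 0 := by unfold bwd; simp
        rw [e0]; simp
      rw [hu, intervalIntegral.integral_add i1 i2, e1, mean_value (fwd_bound hA m) hη α]
      simp [fwd]
    -- W part
    have hW : ‖∫ x in U, ((1 - T x : ℝ) : ℂ) * u x‖ ≤ δ := by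
      have c1 : IntegrableOn (fun x : ℝ => ((1 - T x : ℝ) : ℂ) *
          ps (fwd a m) (exp ((x + η * I) * I))) U :=
        cont_integrableOn hUab ((continuous_ofReal.comp (continuous_const.sub hTc)).mul hcf)
      have c2 : IntegrableOn (fun x : ℝ => ((1 - T x : ℝ) : ℂ) *
          (starRingEnd ℂ) (ps (bwd a m) (exp ((x + η * I) * I)))) U :=
        cont_integrableOn hUab ((continuous_ofReal.comp (continuous_const.sub hTc)).mul hcb')
      have e1 : ∫ x in U, ((1 - T x : ℝ) : ℂ) * u x
          = (∫ x in U, ((1 - T x : ℝ) : ℂ) * ps (fwd a m) (exp ((x + η * I) * I)))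
            + (starRingEnd ℂ) (∫ x in U, ((1 - T x : ℝ) : ℂ) *
              ps (bwd a m) (exp ((x + η * I) * I))) := by
        rw [← integral_conj, ← integral_add c1]
        · congr 1
          ext x
          rw [hu, map_mul, conj_ofReal]
          ring
        · have e9 : (fun x : ℝ => (starRingEnd ℂ) (((1 - T x : ℝ) : ℂ) *
              ps (bwd a m) (exp ((x + η * I) * I)))) = fun x : ℝ => ((1 - T x : ℝ) : ℂ) *
              (starRingEnd ℂ) (ps (bwd a m) (exp ((x + η * I) * I))) := by
            ext x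
            rw [map_mul, conj_ofReal]
          rw [e9]
          exact c2
      rw [e1]
      have k1 := key hP hα hβ hab7 hdf (hgf m) hU S hε hε7 hεS hη hηε
      have k2 := key hP hα hβ hab7 hdb (hgb m) hU S hε hε7 hεS hη hηε
      calc _ ≤ _ := norm_add_le _ _
        _ ≤ (δ / 4 + δ / 4) + (δ / 4 + δ / 4) := by
            rw [RCLike.norm_conj]
            exact add_le_add (k1.trans (add_le_add hS hεK)) (k2.trans (add_le_add hS hεK))
        _ = δ := by ring
    have hsplit : ∫ x in Ioo α β, u x = (∫ x in U, ((1 - T x : ℝ) : ℂ) * u x)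
        + ∫ x in Ioo α β, (V x : ℂ) * u x := by
      have hVint : IntegrableOn (fun x : ℝ => (V x : ℂ) * u x) (Ioo α β) := by
        apply Integrable.bdd_mul (c := 1 + S.card) (cont_integrableOn (subset_refl _) hcu)
        · exact (continuous_ofReal.measurable.comp hVm).aestronglyMeasurable
        · refine Eventually.of_forall (fun x => ?_)
          rw [norm_real, Real.norm_eq_abs, abs_of_nonneg (hV0 x)]
          exact hV1 x
      have e1 : ∫ x in U, ((1 - T x : ℝ) : ℂ) * u x = ∫ x in Ioo α β, ((1 - V x : ℝ) : ℂ) * u x := by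
        have e2 : ∫ x in Ioo α β, ((1 - V x : ℝ) : ℂ) * u x
            = ∫ x in U, ((1 - V x : ℝ) : ℂ) * u x := by
          apply setIntegral_eq_of_subset_of_forall_sdiff_eq_zero measurableSet_Ioo hUab
          intro x hx
          have hxP : x ∈ P := by
            by_contra h
            exact hx.2 (hU ▸ ⟨hx.1, h⟩)
          have : V x = 1 := by simp only [hV]; rw [if_pos hxP]
          rw [this]; simp
        rw [e2]
        apply setIntegral_congr_fun hUo.measurableSet
        intro x hx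
        have hxP : x ∉ P := by rw [hU] at hx; exact hx.2
        have : V x = T x := by simp only [hV]; rw [if_neg hxP]
        simp only [this]
      rw [e1, ← integral_add]
      · congr 1
        ext x
        push_cast
        ring
      · have : (fun x : ℝ => ((1 - V x : ℝ) : ℂ) * u x) = fun x => u x - (V x : ℂ) * u x := by
          ext x; push_cast; ring
        rw [this]
        exact (cont_integrableOn (subset_refl _) hcu).sub hVint
      · exact hVint
    -- V part
    have hVD : ‖(∫ x in Ioo α β, (V x : ℂ) * u x) - (Real.exp (m * η) : ℂ) *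
        ∫ x in Ioo α β, exp (-(m * x * I)) * ((V x : ℂ) * ps a (exp ((x + η * I) * I)))‖ ≤ δ := by
      have i1 : IntegrableOn (fun x : ℝ => (V x : ℂ) * u x) (Ioo α β) := by
        apply Integrable.bdd_mul (c := 1 + S.card) (cont_integrableOn (subset_refl _) hcu)
        · exact (continuous_ofReal.measurable.comp hVm).aestronglyMeasurable
        · refine Eventually.of_forall (fun x => ?_)
          rw [norm_real, Real.norm_eq_abs, abs_of_nonneg (hV0 x)]
          exact hV1 x
      have hcexp : Continuous (fun x : ℝ => exp (-(m * x * I)) * ps a (exp ((x + η * I) * I))) := by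
        apply Continuous.mul _ hca
        fun_prop
      have i2 : IntegrableOn (fun x : ℝ => (V x : ℂ) *
          (exp (-(m * x * I)) * ps a (exp ((x + η * I) * I)))) (Ioo α β) := by
        apply Integrable.bdd_mul (c := 1 + S.card) (cont_integrableOn (subset_refl _) hcexp)
        · exact (continuous_ofReal.measurable.comp hVm).aestronglyMeasurable
        · refine Eventually.of_forall (fun x => ?_)
          rw [norm_real, Real.norm_eq_abs, abs_of_nonneg (hV0 x)]
          exact hV1 x
      have e1 : (∫ x in Ioo α β, (V x : ℂ) * u x) - (Real.exp (m * η) : ℂ) *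
          ∫ x in Ioo α β, exp (-(m * x * I)) * ((V x : ℂ) * ps a (exp ((x + η * I) * I)))
          = ∫ x in Ioo α β, ((V x : ℂ) * (u x - (Real.exp (m * η) : ℂ) *
            (exp (-(m * x * I)) * ps a (exp ((x + η * I) * I))))) := by
        have e3 : (fun x : ℝ => exp (-(m * x * I)) * ((V x : ℂ) * ps a (exp ((x + η * I) * I))))
            = fun x : ℝ => (V x : ℂ) * (exp (-(m * x * I)) * ps a (exp ((x + η * I) * I))) := by
          ext x; ring
        rw [e3, ← integral_const_mul, ← integral_sub i1 (i2.const_mul _)]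
        congr 1
        ext x
        ring
      rw [e1]
      have e2 : ∀ x ∈ Ioo α β, ‖((V x : ℂ) * (u x - (Real.exp (m * η) : ℂ) *
            (exp (-(m * x * I)) * ps a (exp ((x + η * I) * I)))))‖ ≤
            (1 + S.card) * (m * (2 * M * (Real.exp (m * η) - Real.exp (-(m * η))))) := by
        intro x _
        rw [norm_mul, norm_real, Real.norm_eq_abs, abs_of_nonneg (hV0 x)]
        exact mul_le_mul (hV1 x) (decomp_bound hA m hη x) (norm_nonneg _) (by positivity)
      have e3 := norm_setIntegral_le_of_norm_le_const (μ := volume) measure_Ioo_lt_top e2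
      rw [Real.volume_real_Ioo_of_le hab.le, hβdef, add_sub_cancel_left] at e3
      have := hηd m hm
      calc _ ≤ _ := e3
        _ ≤ δ := by linarith
    set J := ∫ x in Ioo α β, exp (-(m * x * I)) * ((V x : ℂ) * ps a (exp ((x + η * I) * I)))
    have h1 : 2 * Real.pi * ‖a m‖ ≤ δ + (δ + 2 * ‖J‖) := by
      have e1 : 2 * Real.pi * ‖a m‖ = ‖(2 * Real.pi : ℂ) * a m‖ := by
        rw [norm_mul, norm_mul, norm_real, Real.norm_eq_abs, abs_of_pos Real.pi_pos]
        simp
      rw [e1, ← hmean, hsplit]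
      have e2 : ‖∫ x in Ioo α β, (V x : ℂ) * u x‖ ≤ δ + 2 * ‖J‖ := by
        have e3 : ∫ x in Ioo α β, (V x : ℂ) * u x = ((∫ x in Ioo α β, (V x : ℂ) * u x)
          - (Real.exp (m * η) : ℂ) * J) + (Real.exp (m * η) : ℂ) * J := by ring
        rw [e3]
        calc _ ≤ _ := norm_add_le _ _
          _ ≤ δ + 2 * ‖J‖ := by
              apply add_le_add hVD
              rw [norm_mul, norm_real, Real.norm_eq_abs, abs_of_pos (Real.exp_pos _)]
              exact mul_le_mul_of_nonneg_right (hηm m hm) (norm_nonneg _)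
      exact (norm_add_le _ _).trans (add_le_add hW e2)
    have h2 : 2 * Real.pi * δ ≤ 2 * Real.pi * ‖a m‖ := by
      apply mul_le_mul_of_nonneg_left hmδ (by positivity)
    have h3 := two_pi_gt
    have h4 := two_pi_le
    nlinarith)
  rw [hF2] at hgoal
  have h6 : C ^ 2 < n0 * (δ / 4) ^ 2 := by
    rwa [div_lt_iff₀ (by positivity)] at hn0
  linarith

end Pool.Agent.Lib.P64ccd3
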