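import Pool.Agent.Lib.P64ccd3.Part6

set_option autoImplicit false

open Complex MeasureTheory Set Filter Topology

namespace Pool.Agent.Lib.P64ccd3

lemma mul_exp_neg_le (t : ℝ) : t * Real.exp (-t) ≤ 1 := by
  have h1 : t ≤ Real.exp t := by linarith [Real.add_one_le_exp t]
  calc t * Real.exp (-t) ≤ Real.exp t * Real.exp (-t) := by
        apply mul_le_mul_of_nonneg_right h1 (Real.exp_pos _).le
    _ = 1 := by rw [← Real.exp_add]; simp

/-- remainder function -/
noncomputable def H (a : ℕ → ℂ) (g : ℂ → ℂ) (m : ℕ) (w : ℂ) : ℂ :=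
  exp (-(m * w * I)) * (g (exp (w * I)) - ∑ k ∈ Finset.range m, a k * exp (w * I) ^ k)

lemma H_pos {a : ℕ → ℂ} {A : ℝ} (hA : ∀ n, ‖a n‖ ≤ A) {g : ℂ → ℂ} {m : ℕ} {w : ℂ}
    (hw : 0 < w.im) (hg : g (exp (w * I)) = ps a (exp (w * I))) :
    H a g m w = ps (fwd a m) (exp (w * I)) := by
  have hz := norm_exp_lt_one hw
  unfold H
  rw [hg, ps_fwd hA m hz, add_sub_cancel_left, ← mul_assoc, ← Complex.exp_nat_mul, ← exp_add]
  have : -(↑m * w * I) + ↑m * (w * I) = 0 := by ring
  rw [this, exp_zero, one_mul]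

lemma H_bound_pos {a : ℕ → ℂ} {A : ℝ} (hA : ∀ n, ‖a n‖ ≤ A) {g : ℂ → ℂ} {m : ℕ} {w : ℂ}
    (hw : 0 < w.im) (hw1 : w.im ≤ 1) (hg : g (exp (w * I)) = ps a (exp (w * I)))
    {ε : ℝ} (hε : ∀ k, m ≤ k → ‖a k‖ ≤ ε) : w.im * ‖H a g m w‖ ≤ 2 * ε := by
  rw [H_pos hA hw hg]
  have hz := norm_exp_lt_one hw
  have hε0 : 0 ≤ ε := (norm_nonneg _).trans (hε m le_rfl)
  have h1 : ‖ps (fwd a m) (exp (w * I))‖ ≤ ε * (1 - ‖exp (w * I)‖)⁻¹ := by
    unfold ps
    have h2 : HasSum (fun n => ε * ‖exp (w * I)‖ ^ n) (ε * (1 - ‖exp (w * I)‖)⁻¹) :=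
      (hasSum_geometric_of_lt_one (norm_nonneg _) hz).mul_left ε
    apply tsum_of_norm_bounded h2
    intro n
    rw [norm_mul, norm_pow]
    exact mul_le_mul_of_nonneg_right (hε _ (Nat.le_add_right _ _)) (by positivity)
  rw [norm_exp_mul_I'] at h1 hz
  have h5 : w.im ≤ (1 + w.im) * (1 - Real.exp (-w.im)) := by
    have : Real.exp (-w.im) * (1 + w.im) ≤ 1 := by
      have h6 : 1 + w.im ≤ Real.exp w.im := by linarith [Real.add_one_le_exp w.im]
      calc Real.exp (-w.im) * (1 + w.im) ≤ Real.exp (-w.im) * Real.exp w.im := by gcongr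
        _ = 1 := by rw [← Real.exp_add]; simp
    nlinarith
  have h7 : 0 < 1 - Real.exp (-w.im) := by linarith
  calc w.im * ‖ps (fwd a m) (exp (w * I))‖
      ≤ ((1 + w.im) * (1 - Real.exp (-w.im))) * (ε * (1 - Real.exp (-w.im))⁻¹) := by gcongr
    _ = (1 + w.im) * ε := by field_simp
    _ ≤ 2 * ε := by
        apply mul_le_mul_of_nonneg_right _ hε0
        linarith

lemma H_bound_neg {a : ℕ → ℂ} {A : ℝ} (hA : ∀ n, ‖a n‖ ≤ A) {g : ℂ → ℂ} {m N : ℕ}
    (hNm : N < m) {w : ℂ}
    (hw : w.im < 0) {B : ℝ} (hg : ‖g (exp (w * I))‖ ≤ B)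
    {ε : ℝ} (hε : ∀ k, N ≤ k → ‖a k‖ ≤ ε) :
    (-w.im) * ‖H a g m w‖ ≤ B / m + (N * A / (m - N) + ε) := by
  set s := -w.im with hs
  have hs0 : 0 < s := by linarith
  have hA0 : 0 ≤ A := (norm_nonneg _).trans (hA 0)
  have hε0 : 0 ≤ ε := (norm_nonneg _).trans (hε N le_rfl)
  have hm0 : 0 < m := by omega
  have hmR : (0 : ℝ) < m := by exact_mod_cast hm0
  have hB0 : 0 ≤ B := (norm_nonneg _).trans hg
  have e1 : ‖exp (-(m * w * I))‖ = Real.exp (-(m * s)) := by
    rw [Complex.norm_exp]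
    congr 1
    simp [hs]
  have e2 : ∀ k ∈ Finset.range m, ‖exp (-(m * w * I)) * (a k * exp (w * I) ^ k)‖
      = ‖a k‖ * Real.exp (-((m - k) * s)) := by
    intro k _
    rw [norm_mul, norm_mul, norm_pow, e1, norm_exp_mul_I', ← Real.exp_nat_mul, mul_left_comm,
      ← Real.exp_add]
    congr 2
    rw [hs]; ring
  have h1 : ‖H a g m w‖ ≤ Real.exp (-(m * s)) * B + ∑ k ∈ Finset.range m,
      ‖a k‖ * Real.exp (-((m - k) * s)) := by
    unfold H
    rw [mul_sub, Finset.mul_sum]
    apply (norm_sub_le _ _).trans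
    apply add_le_add
    · rw [norm_mul, e1]
      exact mul_le_mul_of_nonneg_left hg (Real.exp_pos _).le
    · apply (norm_sum_le _ _).trans
      rw [Finset.sum_congr rfl e2]
  have h2 : s * (Real.exp (-(m * s)) * B) ≤ B / m := by
    rw [le_div_iff₀ hmR]
    have := mul_exp_neg_le (m * s)
    calc s * (Real.exp (-(m * s)) * B) * m = (m * s * Real.exp (-(m * s))) * B := by ring
      _ ≤ 1 * B := by gcongr
      _ = B := one_mul B
  have h3 : s * ∑ k ∈ Finset.range m, ‖a k‖ * Real.exp (-((m - k) * s))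
      ≤ N * A / (m - N) + ε := by
    have hsplit : ∑ k ∈ Finset.range m, ‖a k‖ * Real.exp (-(((m : ℝ) - k) * s))
        = (∑ k ∈ Finset.range N, ‖a k‖ * Real.exp (-(((m : ℝ) - k) * s)))
          + ∑ k ∈ Finset.Ico N m, ‖a k‖ * Real.exp (-(((m : ℝ) - k) * s)) := by
      rw [Finset.sum_range_add_sum_Ico _ hNm.le]
    rw [hsplit, mul_add]
    apply add_le_add
    · rw [Finset.mul_sum]
      have hmN : (0 : ℝ) < m - N := by
        have : (N : ℝ) < m := by exact_mod_cast hNm
        linarith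
      calc _ ≤ ∑ k ∈ Finset.range N, A / (m - N) := by
            apply Finset.sum_le_sum
            intro k hk
            rw [Finset.mem_range] at hk
            have hkN : (k : ℝ) ≤ N := by exact_mod_cast hk.le
            rw [le_div_iff₀ hmN]
            have := mul_exp_neg_le ((m - k) * s)
            calc s * (‖a k‖ * Real.exp (-((m - k) * s))) * (m - N)
                ≤ s * (A * Real.exp (-((m - k) * s))) * (m - k) := by
                  gcongr
                  exact hA k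
              _ = A * ((m - k) * s * Real.exp (-((m - k) * s))) := by ring
              _ ≤ A * 1 := by gcongr
              _ = A := mul_one A
        _ = N * A / (m - N) := by rw [Finset.sum_const, nsmul_eq_mul, Finset.card_range]; ring
    · have hq : Real.exp (-s) < 1 := by rw [Real.exp_lt_one_iff]; linarith
      have hgeo : ∑ k ∈ Finset.Ico N m, Real.exp (-(((m : ℝ) - k) * s))
          ≤ Real.exp (-s) * (1 - Real.exp (-s))⁻¹ := by
        have h4 : HasSum (fun n : ℕ => Real.exp (-s) * Real.exp (-s) ^ n)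
          (Real.exp (-s) * (1 - Real.exp (-s))⁻¹) :=
          (hasSum_geometric_of_lt_one (Real.exp_pos _).le hq).mul_left _
        have h5 : ∑ k ∈ Finset.Ico N m, Real.exp (-(((m : ℝ) - k) * s))
            = ∑ n ∈ Finset.range (m - N), Real.exp (-s) * Real.exp (-s) ^ n := by
          rw [Finset.sum_Ico_eq_sum_range, ← Finset.sum_range_reflect]
          apply Finset.sum_congr rfl
          intro n hn
          rw [Finset.mem_range] at hn
          rw [← Real.exp_nat_mul, ← Real.exp_add]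
          congr 1
          have : ((N + (m - N - 1 - n) : ℕ) : ℝ) = m - 1 - n := by
            have h6 : N + (m - N - 1 - n) + 1 + n = m := by omega
            have h7 : ((N + (m - N - 1 - n) : ℕ) : ℝ) + 1 + n = m := by exact_mod_cast h6
            linarith
          rw [this]
          ring
        rw [h5]
        exact sum_le_hasSum _ (fun n _ => by positivity) h4
      have h6 : s * Real.exp (-s) ≤ 1 - Real.exp (-s) := by
        have : Real.exp (-s) * (1 + s) ≤ 1 := by
          have h6 : 1 + s ≤ Real.exp s := by linarith [Real.add_one_le_exp s]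
          calc Real.exp (-s) * (1 + s) ≤ Real.exp (-s) * Real.exp s := by gcongr
            _ = 1 := by rw [← Real.exp_add]; simp
        linarith
      have hq' : 0 < 1 - Real.exp (-s) := by linarith
      calc s * ∑ k ∈ Finset.Ico N m, ‖a k‖ * Real.exp (-(((m : ℝ) - k) * s))
          ≤ s * ∑ k ∈ Finset.Ico N m, ε * Real.exp (-(((m : ℝ) - k) * s)) := by
            apply mul_le_mul_of_nonneg_left _ hs0.le
            apply Finset.sum_le_sum
            intro k hk
            rw [Finset.mem_Ico] at hk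
            exact mul_le_mul_of_nonneg_right (hε k hk.1) (Real.exp_pos _).le
        _ = ε * (s * ∑ k ∈ Finset.Ico N m, Real.exp (-(((m : ℝ) - k) * s))) := by
            rw [← Finset.mul_sum]; ring
        _ ≤ ε * (s * (Real.exp (-s) * (1 - Real.exp (-s))⁻¹)) := by gcongr
        _ = ε * ((s * Real.exp (-s)) * (1 - Real.exp (-s))⁻¹) := by ring
        _ ≤ ε * ((1 - Real.exp (-s)) * (1 - Real.exp (-s))⁻¹) := by gcongr
        _ = ε := by field_simp
  calc s * ‖H a g m w‖ ≤ s * (Real.exp (-(m * s)) * B + ∑ k ∈ Finset.range m,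
      ‖a k‖ * Real.exp (-((m - k) * s))) := by gcongr
    _ = s * (Real.exp (-(m * s)) * B) + s * ∑ k ∈ Finset.range m,
      ‖a k‖ * Real.exp (-((m - k) * s)) := by ring
    _ ≤ _ := add_le_add h2 h3

theorem riesz {a : ℕ → ℂ} (ha : Tendsto a atTop (𝓝 0)) {x0 ρ : ℝ} (hρ : 0 < ρ) {g : ℂ → ℂ}
    (hg : DifferentiableOn ℂ g (Metric.ball (exp (x0 * I)) ρ))
    (hgf : ∀ w ∈ Metric.ball (exp ((x0 : ℂ) * I)) ρ, ‖w‖ < 1 → g w = ps a w) :
    Tendsto (fun N => ∑ n ∈ Finset.range N, a n * (exp (x0 * I)) ^ n) atTop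
      (𝓝 (g (exp (x0 * I)))) := by
  obtain ⟨A, hA⟩ : ∃ A, ∀ n, ‖a n‖ ≤ A := by
    obtain ⟨A, hA⟩ := (Metric.isBounded_range_of_tendsto a ha).exists_norm_le
    exact ⟨A, fun n => hA _ (mem_range_self n)⟩
  have hA0 : 0 ≤ A := (norm_nonneg _).trans (hA 0)
  -- choose the rectangle
  obtain ⟨δ, hδ, hδ1, hδball⟩ : ∃ δ : ℝ, 0 < δ ∧ δ ≤ 1 ∧ ∀ w : ℂ, |w.re - x0| ≤ δ → |w.im| ≤ δ →
      exp (w * I) ∈ Metric.ball (exp (x0 * I)) ρ := by
    have hcont : ContinuousAt (fun w : ℂ => exp (w * I)) (x0 : ℂ) := by fun_prop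
    obtain ⟨r, hr, hr2⟩ := Metric.continuousAt_iff.mp hcont ρ hρ
    refine ⟨min 1 (r / 3), by positivity, min_le_left _ _, ?_⟩
    intro w h1 h2
    apply hr2
    rw [dist_eq_norm]
    have e1 : w - (x0 : ℂ) = ((w.re - x0 : ℝ) : ℂ) + w.im * I := by
      apply Complex.ext <;> simp
    rw [e1]
    have := norm_le_add_im (w.re - x0) w.im
    have := min_le_right 1 (r / 3)
    linarith
  set U : Set ℂ := Ioo (x0 - δ) (x0 + δ) ×ℂ Ioo (-δ) δ with hU
  have hcl : closure U = Icc (x0 - δ) (x0 + δ) ×ℂ Icc (-δ) δ := by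
    rw [hU, closure_reProdIm, closure_Ioo (by linarith), closure_Ioo (by linarith)]
  have hclmem : ∀ w ∈ closure U, |w.re - x0| ≤ δ ∧ |w.im| ≤ δ := by
    intro w hw
    rw [hcl, mem_reProdIm] at hw
    constructor
    · rw [abs_le]; constructor <;> linarith [hw.1.1, hw.1.2]
    · rw [abs_le]; exact hw.2
  have hbd : Bornology.IsBounded U := by
    apply Bornology.IsBounded.reProdIm <;> exact Metric.isBounded_Ioo _ _
  have hcomp : IsCompact (closure U) := hbd.isCompact_closure
  have hgd : DifferentiableOn ℂ (fun w : ℂ => g (exp (w * I))) {w | exp (w * I) ∈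
      Metric.ball (exp (x0 * I)) ρ} := by
    apply hg.comp (f := fun w : ℂ => exp (w * I))
    · fun_prop
    · intro w hw; exact hw
  have hsub : closure U ⊆ {w | exp (w * I) ∈ Metric.ball (exp (x0 * I)) ρ} := by
    intro w hw
    exact hδball w (hclmem w hw).1 (hclmem w hw).2
  obtain ⟨B, hB⟩ : ∃ B, ∀ w ∈ closure U, ‖g (exp (w * I))‖ ≤ B :=
    hcomp.exists_bound_of_continuousOn (hgd.continuousOn.mono hsub)
  have hx0 : (x0 : ℂ) ∈ closure U := by
    rw [hcl, mem_reProdIm]
    simp [hδ.le]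
  have hB0 : 0 ≤ B := (norm_nonneg _).trans (hB _ hx0)
  rw [Metric.tendsto_atTop]
  intro e he
  -- epsilon
  set ε : ℝ := e * δ / 16 with hε
  have hε0 : 0 < ε := by positivity
  obtain ⟨N, hN⟩ : ∃ N, ∀ k, N ≤ k → ‖a k‖ ≤ ε := by
    rw [Metric.tendsto_atTop] at ha
    obtain ⟨N, hN⟩ := ha ε hε0
    refine ⟨N, fun k hk => ?_⟩
    have := hN k hk
    rw [dist_zero_right] at this
    exact this.le
  obtain ⟨m1, hm1⟩ : ∃ m1 : ℕ, ∀ m : ℕ, m1 ≤ m → B / m ≤ ε ∧ N * A / (m - N) ≤ ε := by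
    have t1 : Tendsto (fun m : ℕ => B / m) atTop (𝓝 0) :=
      tendsto_const_div_atTop_nhds_zero_nat B
    have t2 : Tendsto (fun m : ℕ => N * A / ((m : ℝ) - N)) atTop (𝓝 0) := by
      apply Tendsto.div_atTop tendsto_const_nhds
      exact tendsto_atTop_add_const_right _ _ tendsto_natCast_atTop_atTop
    have := (t1.eventually (eventually_le_nhds hε0)).and (t2.eventually (eventually_le_nhds hε0))
    exact eventually_atTop.mp this
  refine ⟨max m1 (N + 1), fun m hm => ?_⟩
  have hm1' : m1 ≤ m := (le_max_left _ _).trans hm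
  have hNm : N < m := (le_max_right _ _).trans hm
  obtain ⟨hBm, hNAm⟩ := hm1 m hm1'
  -- function Q
  set Q : ℂ → ℂ := fun w => H a g m w * ((w - x0) ^ 2 - (δ : ℂ) ^ 2) with hQ
  have hQd : DiffContOnCl ℂ Q U := by
    have hd : DifferentiableOn ℂ Q {w | exp (w * I) ∈ Metric.ball (exp (x0 * I)) ρ} := by
      apply DifferentiableOn.mul
      · unfold H
        apply DifferentiableOn.mul
        · fun_prop
        · apply hgd.sub
          fun_prop
      · fun_prop
    exact (hd.mono hsub).diffContOnCl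
  have key1 : ∀ w ∈ closure U, w.im ≠ 0 → |w.im| * ‖H a g m w‖ ≤ 3 * ε := by
    intro w hw hw0
    have hwm := hclmem w hw
    have hwb := hδball w hwm.1 hwm.2
    rcases lt_or_gt_of_ne hw0 with h | h
    · rw [abs_of_neg h]
      have := H_bound_neg hA hNm h (hB w hw) hN
      linarith
    · rw [abs_of_pos h]
      have h1 : w.im ≤ 1 := by
        have := hwm.2
        rw [abs_of_pos h] at this
        linarith
      have := H_bound_pos (m := m) hA h h1 (hgf _ hwb (norm_exp_lt_one h)) (ε := ε)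
        (fun k hk => hN k (by omega))
      linarith
  have key2 : ∀ w ∈ frontier U, ‖Q w‖ ≤ 15 * δ * ε := by
    intro w hw
    have hwc : w ∈ closure U := frontier_subset_closure hw
    have hwm := hclmem w hwc
    have hw2 : (|w.im| = δ) ∨ (|w.re - x0| = δ) := by
      rw [hU, frontier_reProdIm, closure_Ioo (by linarith), closure_Ioo (by linarith),
        frontier_Ioo (by linarith), frontier_Ioo (by linarith)] at hw
      rcases hw with h | h
      · left
        rw [mem_reProdIm] at h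
        rcases h.2 with h' | h'
        · rw [h', abs_neg, abs_of_pos hδ]
        · rw [h', abs_of_pos hδ]
      · right
        rw [mem_reProdIm] at h
        rcases h.1 with h' | h'
        · rw [h', sub_sub_cancel_left, abs_neg, abs_of_pos hδ]
        · rw [h', add_sub_cancel_left, abs_of_pos hδ]
    have e1 : w - (x0 : ℂ) = ((w.re - x0 : ℝ) : ℂ) + w.im * I := by
      apply Complex.ext <;> simp
    have hfac : ‖(w - x0) ^ 2 - (δ : ℂ) ^ 2‖ ≤ 5 * δ * |w.im| := by
      rcases hw2 with h | h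
      · -- horizontal side
        have h1 : ‖w - (x0 : ℂ)‖ ≤ 2 * δ := by
          rw [e1]
          have := norm_le_add_im (w.re - x0) w.im
          linarith [hwm.1]
        calc ‖(w - x0) ^ 2 - (δ : ℂ) ^ 2‖ ≤ ‖(w - x0) ^ 2‖ + ‖(δ : ℂ) ^ 2‖ := norm_sub_le _ _
          _ = ‖w - x0‖ ^ 2 + δ ^ 2 := by
              rw [norm_pow, norm_pow, norm_real, Real.norm_eq_abs, abs_of_pos hδ]
          _ ≤ (2 * δ) ^ 2 + δ ^ 2 := by gcongr
          _ = 5 * δ * |w.im| := by rw [h]; ring
      · -- vertical side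
        have h1 : (w - x0) ^ 2 - (δ : ℂ) ^ 2 = (w.im : ℂ) * (2 * (w.re - x0 : ℝ) * I - w.im) := by
          rw [e1]
          have h2 : ((w.re - x0 : ℝ) : ℂ) ^ 2 = (δ : ℂ) ^ 2 := by
            rw [← ofReal_pow, ← ofReal_pow, ← sq_abs, h]
          linear_combination h2 + (w.im : ℂ) ^ 2 * I_sq
        rw [h1, norm_mul, norm_real, Real.norm_eq_abs]
        have h3 : ‖(2 * (w.re - x0 : ℝ) * I - w.im : ℂ)‖ ≤ 3 * δ := by
          calc _ ≤ ‖(2 * (w.re - x0 : ℝ) * I : ℂ)‖ + ‖(w.im : ℂ)‖ := norm_sub_le _ _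
            _ = 2 * |w.re - x0| + |w.im| := by
                rw [norm_mul, norm_mul, norm_I, norm_real, norm_real, Real.norm_eq_abs,
                  Real.norm_eq_abs]
                simp
            _ ≤ 3 * δ := by linarith [hwm.1, hwm.2]
        calc |w.im| * _ ≤ |w.im| * (3 * δ) := by gcongr
          _ ≤ 5 * δ * |w.im| := by nlinarith [abs_nonneg w.im]
    by_cases hw0 : w.im = 0
    · rw [hw0, abs_zero, mul_zero] at hfac
      simp only [hQ]
      rw [norm_mul]
      have : ‖(w - x0) ^ 2 - (δ : ℂ) ^ 2‖ = 0 := le_antisymm hfac (norm_nonneg _)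
      rw [this, mul_zero]
      positivity
    · simp only [hQ]
      rw [norm_mul]
      have := key1 w hwc hw0
      calc _ ≤ ‖H a g m w‖ * (5 * δ * |w.im|) := by gcongr
        _ = 5 * δ * (|w.im| * ‖H a g m w‖) := by ring
        _ ≤ 5 * δ * (3 * ε) := by gcongr
        _ = 15 * δ * ε := by ring
  have key3 := Complex.norm_le_of_forall_mem_frontier_norm_le hbd hQd key2 hx0
  have e2 : ‖Q x0‖ = ‖H a g m x0‖ * δ ^ 2 := by
    simp only [hQ]
    rw [norm_mul]
    congr 1
    rw [sub_self]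
    simp only [ne_eq, OfNat.ofNat_ne_zero, not_false_eq_true, zero_pow, zero_sub, norm_neg,
      norm_pow, norm_real, Real.norm_eq_abs]
    rw [abs_of_pos hδ]
  have e3 : ‖H a g m x0‖ = dist (∑ n ∈ Finset.range m, a n * (exp (x0 * I)) ^ n)
      (g (exp (x0 * I))) := by
    unfold H
    rw [norm_mul, dist_comm, dist_eq_norm]
    have : ‖exp (-((m : ℂ) * x0 * I))‖ = 1 := by
      rw [Complex.norm_exp]; simp
    rw [this, one_mul]
  rw [e2, e3] at key3
  have h7 : dist (∑ n ∈ Finset.range m, a n * (exp (x0 * I)) ^ n) (g (exp (x0 * I))) * δ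
      ≤ 15 * ε := by
    have : (dist (∑ n ∈ Finset.range m, a n * (exp (x0 * I)) ^ n) (g (exp (x0 * I))) * δ) * δ
      ≤ 15 * ε * δ := by nlinarith
    exact le_of_mul_le_mul_right this hδ
  rw [hε] at h7
  have h8 : dist (∑ n ∈ Finset.range m, a n * (exp (x0 * I)) ^ n) (g (exp (x0 * I))) * δ
      < e * δ := by
    have : 0 < e * δ := by positivity
    linarith
  exact lt_of_mul_lt_mul_right h8 hδ.le

end Pool.Agent.Lib.P64ccd3
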