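import Pool.Agent.Lib.P64ccd3.Part7

set_option autoImplicit false

open Complex MeasureTheory Set Filter Topology

namespace Pool.Agent.Lib.P64ccd3

theorem riesz_unif {a : ℕ → ℂ} (ha : Tendsto a atTop (𝓝 0)) {x0 ρ : ℝ} (hρ : 0 < ρ) {g : ℂ → ℂ}
    (hg : DifferentiableOn ℂ g (Metric.ball (exp (x0 * I)) ρ))
    (hgf : ∀ w ∈ Metric.ball (exp ((x0 : ℂ) * I)) ρ, ‖w‖ < 1 → g w = ps a w) :
    ∃ δ : ℝ, 0 < δ ∧ ∀ e : ℝ, 0 < e → ∃ N0 : ℕ, ∀ m, N0 ≤ m → ∀ x : ℝ, |x - x0| ≤ δ →
      dist (∑ n ∈ Finset.range m, a n * (exp (x * I)) ^ n) (g (exp (x * I))) < e := by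
  obtain ⟨A, hA⟩ : ∃ A, ∀ n, ‖a n‖ ≤ A := by
    obtain ⟨A, hA⟩ := (Metric.isBounded_range_of_tendsto a ha).exists_norm_le
    exact ⟨A, fun n => hA _ (mem_range_self n)⟩
  have hA0 : 0 ≤ A := (norm_nonneg _).trans (hA 0)
  -- choose the rectangle
  obtain ⟨δ, hδ, hδ1, hδball⟩ : ∃ δ : ℝ, 0 < δ ∧ δ ≤ 1 ∧ ∀ w : ℂ, |w.re - x0| ≤ δ → |w.im| ≤ δ →
      exp (w * I) ∈ Metric.ball (exp (x0 * I)) ρ := by
    have hcont : ContinuousAt (fun w : ℂ => exp (w * I)) (x0 : ℂ) := by fun_prop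
    obtain ⟨r, hr, hr2⟩ := Metric.continuousAt_iff.mp hcont ρ hρ
    refine ⟨min 1 (r / 3), by positivity, min_le_left _ _, ?_⟩
    intro w h1 h2
    apply hr2
    rw [dist_eq_norm]
    have e1 : w - (x0 : ℂ) = ((w.re - x0 : ℝ) : ℂ) + w.im * I := by
      apply Complex.ext <;> simp
    rw [e1]
    have := norm_le_add_im (w.re - x0) w.im
    have := min_le_right 1 (r / 3)
    linarith
  set U : Set ℂ := Ioo (x0 - δ) (x0 + δ) ×ℂ Ioo (-δ) δ with hU
  have hcl : closure U = Icc (x0 - δ) (x0 + δ) ×ℂ Icc (-δ) δ := by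
    rw [hU, closure_reProdIm, closure_Ioo (by linarith), closure_Ioo (by linarith)]
  have hclmem : ∀ w ∈ closure U, |w.re - x0| ≤ δ ∧ |w.im| ≤ δ := by
    intro w hw
    rw [hcl, mem_reProdIm] at hw
    constructor
    · rw [abs_le]; constructor <;> linarith [hw.1.1, hw.1.2]
    · rw [abs_le]; exact hw.2
  have hbd : Bornology.IsBounded U := by
    apply Bornology.IsBounded.reProdIm <;> exact Metric.isBounded_Ioo _ _
  have hcomp : IsCompact (closure U) := hbd.isCompact_closure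
  have hgd : DifferentiableOn ℂ (fun w : ℂ => g (exp (w * I))) {w | exp (w * I) ∈
      Metric.ball (exp (x0 * I)) ρ} := by
    apply hg.comp (f := fun w : ℂ => exp (w * I))
    · fun_prop
    · intro w hw; exact hw
  have hsub : closure U ⊆ {w | exp (w * I) ∈ Metric.ball (exp (x0 * I)) ρ} := by
    intro w hw
    exact hδball w (hclmem w hw).1 (hclmem w hw).2
  obtain ⟨B, hB⟩ : ∃ B, ∀ w ∈ closure U, ‖g (exp (w * I))‖ ≤ B :=
    hcomp.exists_bound_of_continuousOn (hgd.continuousOn.mono hsub)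
  have hx0 : (x0 : ℂ) ∈ closure U := by
    rw [hcl, mem_reProdIm]
    simp [hδ.le]
  have hB0 : 0 ≤ B := (norm_nonneg _).trans (hB _ hx0)
  refine ⟨δ / 2, by linarith, ?_⟩
  intro e he
  -- epsilon
  set ε : ℝ := e * δ / 32 with hε
  have hε0 : 0 < ε := by positivity
  obtain ⟨N, hN⟩ : ∃ N, ∀ k, N ≤ k → ‖a k‖ ≤ ε := by
    rw [Metric.tendsto_atTop] at ha
    obtain ⟨N, hN⟩ := ha ε hε0
    refine ⟨N, fun k hk => ?_⟩
    have := hN k hk
    rw [dist_zero_right] at this
    exact this.le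
  obtain ⟨m1, hm1⟩ : ∃ m1 : ℕ, ∀ m : ℕ, m1 ≤ m → B / m ≤ ε ∧ N * A / (m - N) ≤ ε := by
    have t1 : Tendsto (fun m : ℕ => B / m) atTop (𝓝 0) :=
      tendsto_const_div_atTop_nhds_zero_nat B
    have t2 : Tendsto (fun m : ℕ => N * A / ((m : ℝ) - N)) atTop (𝓝 0) := by
      apply Tendsto.div_atTop tendsto_const_nhds
      exact tendsto_atTop_add_const_right _ _ tendsto_natCast_atTop_atTop
    have := (t1.eventually (eventually_le_nhds hε0)).and (t2.eventually (eventually_le_nhds hε0))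
    exact eventually_atTop.mp this
  refine ⟨max m1 (N + 1), fun m hm x hx => ?_⟩
  have hm1' : m1 ≤ m := (le_max_left _ _).trans hm
  have hNm : N < m := (le_max_right _ _).trans hm
  obtain ⟨hBm, hNAm⟩ := hm1 m hm1'
  -- function Q
  set Q : ℂ → ℂ := fun w => H a g m w * ((w - x0) ^ 2 - (δ : ℂ) ^ 2) with hQ
  have hQd : DiffContOnCl ℂ Q U := by
    have hd : DifferentiableOn ℂ Q {w | exp (w * I) ∈ Metric.ball (exp (x0 * I)) ρ} := by
      apply DifferentiableOn.mul
      · unfold H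
        apply DifferentiableOn.mul
        · fun_prop
        · apply hgd.sub
          fun_prop
      · fun_prop
    exact (hd.mono hsub).diffContOnCl
  have key1 : ∀ w ∈ closure U, w.im ≠ 0 → |w.im| * ‖H a g m w‖ ≤ 3 * ε := by
    intro w hw hw0
    have hwm := hclmem w hw
    have hwb := hδball w hwm.1 hwm.2
    rcases lt_or_gt_of_ne hw0 with h | h
    · rw [abs_of_neg h]
      have := H_bound_neg hA hNm h (hB w hw) hN
      linarith
    · rw [abs_of_pos h]
      have h1 : w.im ≤ 1 := by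
        have := hwm.2
        rw [abs_of_pos h] at this
        linarith
      have := H_bound_pos (m := m) hA h h1 (hgf _ hwb (norm_exp_lt_one h)) (ε := ε)
        (fun k hk => hN k (by omega))
      linarith
  have key2 : ∀ w ∈ frontier U, ‖Q w‖ ≤ 15 * δ * ε := by
    intro w hw
    have hwc : w ∈ closure U := frontier_subset_closure hw
    have hwm := hclmem w hwc
    have hw2 : (|w.im| = δ) ∨ (|w.re - x0| = δ) := by
      rw [hU, frontier_reProdIm, closure_Ioo (by linarith), closure_Ioo (by linarith),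
        frontier_Ioo (by linarith), frontier_Ioo (by linarith)] at hw
      rcases hw with h | h
      · left
        rw [mem_reProdIm] at h
        rcases h.2 with h' | h'
        · rw [h', abs_neg, abs_of_pos hδ]
        · rw [h', abs_of_pos hδ]
      · right
        rw [mem_reProdIm] at h
        rcases h.1 with h' | h'
        · rw [h', sub_sub_cancel_left, abs_neg, abs_of_pos hδ]
        · rw [h', add_sub_cancel_left, abs_of_pos hδ]
    have e1 : w - (x0 : ℂ) = ((w.re - x0 : ℝ) : ℂ) + w.im * I := by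
      apply Complex.ext <;> simp
    have hfac : ‖(w - x0) ^ 2 - (δ : ℂ) ^ 2‖ ≤ 5 * δ * |w.im| := by
      rcases hw2 with h | h
      · -- horizontal side
        have h1 : ‖w - (x0 : ℂ)‖ ≤ 2 * δ := by
          rw [e1]
          have := norm_le_add_im (w.re - x0) w.im
          linarith [hwm.1]
        calc ‖(w - x0) ^ 2 - (δ : ℂ) ^ 2‖ ≤ ‖(w - x0) ^ 2‖ + ‖(δ : ℂ) ^ 2‖ := norm_sub_le _ _
          _ = ‖w - x0‖ ^ 2 + δ ^ 2 := by
              rw [norm_pow, norm_pow, norm_real, Real.norm_eq_abs, abs_of_pos hδ]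
          _ ≤ (2 * δ) ^ 2 + δ ^ 2 := by gcongr
          _ = 5 * δ * |w.im| := by rw [h]; ring
      · -- vertical side
        have h1 : (w - x0) ^ 2 - (δ : ℂ) ^ 2 = (w.im : ℂ) * (2 * (w.re - x0 : ℝ) * I - w.im) := by
          rw [e1]
          have h2 : ((w.re - x0 : ℝ) : ℂ) ^ 2 = (δ : ℂ) ^ 2 := by
            rw [← ofReal_pow, ← ofReal_pow, ← sq_abs, h]
          linear_combination h2 + (w.im : ℂ) ^ 2 * I_sq
        rw [h1, norm_mul, norm_real, Real.norm_eq_abs]
        have h3 : ‖(2 * (w.re - x0 : ℝ) * I - w.im : ℂ)‖ ≤ 3 * δ := by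
          calc _ ≤ ‖(2 * (w.re - x0 : ℝ) * I : ℂ)‖ + ‖(w.im : ℂ)‖ := norm_sub_le _ _
            _ = 2 * |w.re - x0| + |w.im| := by
                rw [norm_mul, norm_mul, norm_I, norm_real, norm_real, Real.norm_eq_abs,
                  Real.norm_eq_abs]
                simp
            _ ≤ 3 * δ := by linarith [hwm.1, hwm.2]
        calc |w.im| * _ ≤ |w.im| * (3 * δ) := by gcongr
          _ ≤ 5 * δ * |w.im| := by nlinarith [abs_nonneg w.im]
    by_cases hw0 : w.im = 0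
    · rw [hw0, abs_zero, mul_zero] at hfac
      simp only [hQ]
      rw [norm_mul]
      have : ‖(w - x0) ^ 2 - (δ : ℂ) ^ 2‖ = 0 := le_antisymm hfac (norm_nonneg _)
      rw [this, mul_zero]
      positivity
    · simp only [hQ]
      rw [norm_mul]
      have := key1 w hwc hw0
      calc _ ≤ ‖H a g m w‖ * (5 * δ * |w.im|) := by gcongr
        _ = 5 * δ * (|w.im| * ‖H a g m w‖) := by ring
        _ ≤ 5 * δ * (3 * ε) := by gcongr
        _ = 15 * δ * ε := by ring
  have hx' : (x : ℂ) ∈ closure U := by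
    rw [hcl, mem_reProdIm]
    rw [abs_le] at hx
    constructor
    · rw [ofReal_re]; constructor <;> linarith [hx.1, hx.2]
    · rw [ofReal_im]; constructor <;> linarith
  have key3 := Complex.norm_le_of_forall_mem_frontier_norm_le hbd hQd key2 hx'
  have hfacx : 3 / 4 * δ ^ 2 ≤ ‖((x : ℂ) - x0) ^ 2 - (δ : ℂ) ^ 2‖ := by
    have h1 : ((x : ℂ) - x0) ^ 2 - (δ : ℂ) ^ 2 = (((x - x0) ^ 2 - δ ^ 2 : ℝ) : ℂ) := by
      push_cast; ring
    rw [h1, norm_real, Real.norm_eq_abs]
    have h2 : (x - x0) ^ 2 ≤ (δ / 2) ^ 2 := by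
      rw [← sq_abs]; gcongr
    rw [abs_of_nonpos (by nlinarith)]
    nlinarith
  have e2 : ‖Q x‖ = ‖H a g m x‖ * ‖((x : ℂ) - x0) ^ 2 - (δ : ℂ) ^ 2‖ := by
    simp only [hQ]
    rw [norm_mul]
  have e3 : ‖H a g m x‖ = dist (∑ n ∈ Finset.range m, a n * (exp (x * I)) ^ n)
      (g (exp (x * I))) := by
    unfold H
    rw [norm_mul, dist_comm, dist_eq_norm]
    have : ‖exp (-((m : ℂ) * x * I))‖ = 1 := by
      rw [Complex.norm_exp]; simp
    rw [this, one_mul]
  rw [e2, e3] at key3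
  set d := dist (∑ n ∈ Finset.range m, a n * (exp (x * I)) ^ n) (g (exp (x * I))) with hd
  have hd0 : 0 ≤ d := dist_nonneg
  have h6 : d * (3 / 4 * δ ^ 2) ≤ 15 * δ * ε :=
    (mul_le_mul_of_nonneg_left hfacx hd0).trans key3
  have h7 : d * δ ≤ 20 * ε := by
    have : (d * δ) * δ ≤ 20 * ε * δ := by nlinarith
    exact le_of_mul_le_mul_right this hδ
  rw [hε] at h7
  have h8 : d * δ < e * δ := by
    have : 0 < e * δ := by positivity
    linarith
  exact lt_of_mul_lt_mul_right h8 hδ.le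

end Pool.Agent.Lib.P64ccd3
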